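import Pool.Agent.Helper43.FV.Spec

/-!
# Borel-Serre finiteness for a twisted real structure
-/

namespace Pool.Agent.Helper43.FV

open Pool.Agent.Helper43.RS
open scoped ComplexConjugate TensorProduct
open MvPolynomial

/-- the conjugate of a Zariski closed set is Zariski closed -/
theorem BS2_conj {n : ℕ} {Γ : Set (GL (Fin n) ℂ)} (h : ZClosed Γ) (C : GL (Fin n) ℂ) :
    ZClosed {g : GL (Fin n) ℂ | C⁻¹ * g * C ∈ Γ} := by
  obtain ⟨I, hI⟩ := h
  -- the polynomial map `g ↦ C⁻¹ g C` on entries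
  let Φ : MvPolynomial ((Fin n × Fin n) ⊕ (Fin n × Fin n)) ℂ →ₐ[ℂ]
      MvPolynomial ((Fin n × Fin n) ⊕ (Fin n × Fin n)) ℂ :=
    aeval (Sum.elim
      (fun ij => ∑ k, ∑ l, MvPolynomial.C (((C⁻¹ : GL (Fin n) ℂ) : Matrix (Fin n) (Fin n) ℂ) ij.1 k *
        (C : Matrix (Fin n) (Fin n) ℂ) l ij.2) * X (Sum.inl (k, l)))
      (fun ij => ∑ k, ∑ l, MvPolynomial.C (((C⁻¹ : GL (Fin n) ℂ) : Matrix (Fin n) (Fin n) ℂ) ij.1 k *
        (C : Matrix (Fin n) (Fin n) ℂ) l ij.2) * X (Sum.inr (k, l))))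
  have key : ∀ (g : GL (Fin n) ℂ) p, eval (entries g) (Φ p) = eval (entries (C⁻¹ * g * C)) p := by
    intro g p
    have h1 : eval (entries g) (Φ p) = aeval (fun s => eval (entries g)
        (Sum.elim
      (fun ij : Fin n × Fin n => ∑ k, ∑ l, MvPolynomial.C
        (((C⁻¹ : GL (Fin n) ℂ) : Matrix (Fin n) (Fin n) ℂ) ij.1 k *
        (C : Matrix (Fin n) (Fin n) ℂ) l ij.2) * X (Sum.inl (k, l)))
      (fun ij : Fin n × Fin n => ∑ k, ∑ l, MvPolynomial.C
        (((C⁻¹ : GL (Fin n) ℂ) : Matrix (Fin n) (Fin n) ℂ) ij.1 k *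
        (C : Matrix (Fin n) (Fin n) ℂ) l ij.2) * X (Sum.inr (k, l))) s)) p := by
      have h2 := MvPolynomial.comp_aeval (R := ℂ) (Sum.elim
      (fun ij : Fin n × Fin n => ∑ k, ∑ l, MvPolynomial.C
        (((C⁻¹ : GL (Fin n) ℂ) : Matrix (Fin n) (Fin n) ℂ) ij.1 k *
        (C : Matrix (Fin n) (Fin n) ℂ) l ij.2) * X (Sum.inl (k, l)))
      (fun ij : Fin n × Fin n => ∑ k, ∑ l, MvPolynomial.C
        (((C⁻¹ : GL (Fin n) ℂ) : Matrix (Fin n) (Fin n) ℂ) ij.1 k *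
        (C : Matrix (Fin n) (Fin n) ℂ) l ij.2) * X (Sum.inr (k, l))))
        (aeval (entries g) : MvPolynomial ((Fin n × Fin n) ⊕ (Fin n × Fin n)) ℂ →ₐ[ℂ] ℂ)
      have h3 := congrArg (fun u => u p) h2
      simp only [AlgHom.comp_apply, aeval_eq_eval] at h3 ⊢
      exact h3
    rw [h1, aeval_eq_eval]
    have h4 : (fun s => eval (entries g)
        (Sum.elim
      (fun ij : Fin n × Fin n => ∑ k, ∑ l, MvPolynomial.C
        (((C⁻¹ : GL (Fin n) ℂ) : Matrix (Fin n) (Fin n) ℂ) ij.1 k *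
        (C : Matrix (Fin n) (Fin n) ℂ) l ij.2) * X (Sum.inl (k, l)))
      (fun ij : Fin n × Fin n => ∑ k, ∑ l, MvPolynomial.C
        (((C⁻¹ : GL (Fin n) ℂ) : Matrix (Fin n) (Fin n) ℂ) ij.1 k *
        (C : Matrix (Fin n) (Fin n) ℂ) l ij.2) * X (Sum.inr (k, l))) s)) =
        entries (C⁻¹ * g * C) := by
      funext s
      rcases s with ij | ij
      · simp only [Sum.elim_inl, map_sum, map_mul, eval_C, eval_X, entries, Units.val_mul,
          Matrix.mul_apply, Finset.sum_mul]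
        rw [Finset.sum_comm]
        refine Finset.sum_congr rfl fun k _ => Finset.sum_congr rfl fun l _ => ?_
        ring
      · have h5 : (C⁻¹ * g * C)⁻¹ = C⁻¹ * g⁻¹ * C := by group
        simp only [Sum.elim_inr, map_sum, map_mul, eval_C, eval_X, entries, h5, Units.val_mul,
          Matrix.mul_apply, Finset.sum_mul]
        rw [Finset.sum_comm]
        refine Finset.sum_congr rfl fun k _ => Finset.sum_congr rfl fun l _ => ?_
        ring
    rw [h4]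
  refine ⟨Φ '' I, ?_⟩
  ext g
  simp only [Set.mem_ofPred_eq, Set.forall_mem_image, key]
  rw [hI]
  rfl

theorem st_BS2 (hBS : RS.ST_BS) : ST_BS2 := by
  intro n Γ hΓ C hC
  let Γ' : Subgroup (GL (Fin n) ℂ) := Γ.map (MulAut.conj C).toMonoidHom
  have mem : ∀ g, g ∈ Γ' ↔ C⁻¹ * g * C ∈ Γ := by
    intro g
    constructor
    · rintro ⟨x, hx, rfl⟩
      have : C⁻¹ * ((MulAut.conj C).toMonoidHom x) * C = x := by
        change C⁻¹ * (C * x * C⁻¹) * C = x
        group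
      rw [this]
      exact hx
    · intro h
      refine ⟨C⁻¹ * g * C, h, ?_⟩
      change C * (C⁻¹ * g * C) * C⁻¹ = g
      group
  have hcl : ZClosed (Γ' : Set (GL (Fin n) ℂ)) := by
    have h1 := BS2_conj hΓ C
    have h2 : (Γ' : Set (GL (Fin n) ℂ)) = {g | C⁻¹ * g * C ∈ (Γ : Set (GL (Fin n) ℂ))} := by
      ext g
      exact mem g
    rw [h2]
    exact h1
  have hcj : ∀ a ∈ Γ', cj a ∈ Γ' := by
    intro a ha
    rw [mem] at ha ⊢
    have h1 := hC _ ha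
    have h2 : C * (C⁻¹ * a * C) * C⁻¹ = a := by group
    rwa [h2] at h1
  obtain ⟨T, hT1, hT2⟩ := hBS n Γ' hcl hcj
  classical
  refine ⟨T.image fun b => C⁻¹ * b * C, ?_, ?_⟩
  · intro b hb
    obtain ⟨b', hb', rfl⟩ := Finset.mem_image.1 hb
    exact (mem _).1 (hT1 b' hb')
  · intro γ hγ h
    have h1 : C * γ * C⁻¹ ∈ Γ' := by
      rw [mem]
      have : C⁻¹ * (C * γ * C⁻¹) * C = γ := by group
      rw [this]
      exact hγ
    have h2 : C * γ * C⁻¹ * cj (C * γ * C⁻¹) = 1 := by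
      have h3 : C * γ * C⁻¹ * cj (C * γ * C⁻¹) =
          C * (γ * (C⁻¹ * cj (C * γ * C⁻¹) * C)) * C⁻¹ := by group
      rw [h3, h]
      group
    obtain ⟨b, hb, x, hx, h3⟩ := hT2 _ h1 h2
    refine ⟨C⁻¹ * b * C, Finset.mem_image_of_mem _ hb, C⁻¹ * x * C, (mem _).1 hx, ?_⟩
    have h4 : C * (C⁻¹ * x * C) * C⁻¹ = x := by group
    rw [h4]
    have h5 : γ = C⁻¹ * (C * γ * C⁻¹) * C := by group
    rw [h5, h3]
    group

end Pool.Agent.Helper43.FV
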