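import Pool.Agent.Helper43.FV.Spec

/-!
# Assembly of the main theorem for models
-/

namespace Pool.Agent.Helper43.FV

open Pool.Agent.Helper43.RS
open scoped ComplexConjugate TensorProduct
open MvPolynomial

section

variable {K : Type} [Field K] [Algebra ℂ K] {X : Set (Subalgebra ℂ K)}

theorem pres_id : Pres X (fun f : K => f) :=
  ⟨fun O hO => ⟨O, hO, fun _ => Iff.rfl⟩, fun O hO => ⟨O, hO, fun _ => Iff.rfl⟩⟩

theorem pres_comp {a b : K → K} (ha : Pres X a) (hb : Pres X b) : Pres X (fun f => a (b f)) := by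
  constructor
  · intro O hO
    obtain ⟨O₁, h1, h2⟩ := hb.1 O hO
    obtain ⟨O₂, h3, h4⟩ := ha.1 O₁ h1
    exact ⟨O₂, h3, fun f => (h2 f).trans (h4 _)⟩
  · intro O hO
    obtain ⟨O₁, h1, h2⟩ := ha.2 O hO
    obtain ⟨O₂, h3, h4⟩ := hb.2 O₁ h1
    exact ⟨O₂, h3, fun f => (h4 f).trans (h2 _)⟩

theorem pres_symm {a b : K → K} (ha : Pres X a) (h1 : ∀ f, a (b f) = f) :
    Pres X b := by
  constructor
  · intro O hO
    obtain ⟨O₁, h3, h4⟩ := ha.2 O hO
    exact ⟨O₁, h3, fun f => by rw [h4 (b f), h1]⟩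
  · intro O hO
    obtain ⟨O₁, h3, h4⟩ := ha.1 O hO
    exact ⟨O₁, h3, fun f => by rw [h4 (b f), h1]⟩

/-- the automorphisms of a model commuting with a set of automorphisms -/
def autX (X : Set (Subalgebra ℂ K)) (C : Set (K ≃ₐ[ℂ] K)) : Subgroup (K ≃ₐ[ℂ] K) where
  carrier := {a | Pres X a ∧ ∀ b ∈ C, a * b = b * a}
  mul_mem' := by
    rintro a a' ⟨h1, h2⟩ ⟨h3, h4⟩
    refine ⟨show Pres X (fun f => a (a' f)) from pres_comp h1 h3, fun b hb => ?_⟩
    rw [mul_assoc, h4 b hb, ← mul_assoc, h2 b hb, mul_assoc]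
  one_mem' := ⟨pres_id, fun b _ => by rw [one_mul, mul_one]⟩
  inv_mem' := by
    rintro a ⟨h1, h2⟩
    refine ⟨pres_symm h1 fun f => a.apply_symm_apply f, fun b hb => ?_⟩
    rw [inv_mul_eq_iff_eq_mul, ← mul_assoc, h2 b hb, mul_assoc, mul_inv_cancel, mul_one]

theorem mem_autX {C : Set (K ≃ₐ[ℂ] K)} {a : K ≃ₐ[ℂ] K} :
    a ∈ autX X C ↔ Pres X a ∧ ∀ b ∈ C, a * b = b * a := Iff.rfl

theorem linRel_mul {n : ℕ} {v : Fin n → K} {a b : K ≃ₐ[ℂ] K} {M M' : GL (Fin n) ℂ}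
    (ha : LinRel v a M) (hb : LinRel v b M') : LinRel v (a * b : K ≃ₐ[ℂ] K) (M * M') := by
  obtain ⟨f, hf, h1⟩ := ha
  obtain ⟨g, hg, h2⟩ := hb
  refine ⟨a g * f, mul_ne_zero (by simpa using hg) hf, fun i => ?_⟩
  rw [AlgEquiv.mul_apply, h2, map_mul, map_sum]
  simp only [map_smul, h1, Units.val_mul, Matrix.mul_apply, Finset.sum_smul, mul_smul]
  rw [Finset.sum_comm, mul_assoc, Finset.mul_sum, Finset.mul_sum, Finset.mul_sum]
  refine Finset.sum_congr rfl fun j _ => ?_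
  rw [← mul_smul_comm, Finset.smul_sum]
  congr 2
  refine Finset.sum_congr rfl fun k _ => ?_
  rw [smul_comm]

theorem linRel_inv {n : ℕ} {v : Fin n → K} {a : K ≃ₐ[ℂ] K} {M : GL (Fin n) ℂ}
    (ha : LinRel v a M) : LinRel v (a⁻¹ : K ≃ₐ[ℂ] K) M⁻¹ := by
  obtain ⟨f, hf, h1⟩ := ha
  have hf' : (a⁻¹ : K ≃ₐ[ℂ] K) f ≠ 0 := (map_ne_zero _).mpr hf
  refine ⟨((a⁻¹ : K ≃ₐ[ℂ] K) f)⁻¹, inv_ne_zero hf', fun i => ?_⟩
  have h2 : a (∑ j, ((M⁻¹ : GL (Fin n) ℂ) : Matrix (Fin n) (Fin n) ℂ) j i • v j) = f * v i := by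
    rw [map_sum]
    simp only [map_smul, h1]
    have h3 : ∀ k, ∑ j, ((M⁻¹ : GL (Fin n) ℂ) : Matrix (Fin n) (Fin n) ℂ) j i *
        (M : Matrix (Fin n) (Fin n) ℂ) k j = (1 : Matrix (Fin n) (Fin n) ℂ) k i := by
      intro k
      have : (M : Matrix (Fin n) (Fin n) ℂ) * ((M⁻¹ : GL (Fin n) ℂ) : Matrix (Fin n) (Fin n) ℂ)
          = 1 := by rw [← Units.val_mul, mul_inv_cancel, Units.val_one]
      rw [← this, Matrix.mul_apply]
      exact Finset.sum_congr rfl fun j _ => mul_comm _ _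
    have h4 : ∑ j, ((M⁻¹ : GL (Fin n) ℂ) : Matrix (Fin n) (Fin n) ℂ) j i •
        (f * ∑ k, (M : Matrix (Fin n) (Fin n) ℂ) k j • v k) =
        f * ∑ k, (∑ j, ((M⁻¹ : GL (Fin n) ℂ) : Matrix (Fin n) (Fin n) ℂ) j i *
        (M : Matrix (Fin n) (Fin n) ℂ) k j) • v k := by
      simp only [Finset.mul_sum, Finset.sum_smul, Finset.smul_sum, mul_smul_comm, mul_smul]
      rw [Finset.sum_comm]
    rw [h4]
    congr 1
    simp only [h3, Matrix.one_apply, ite_smul, one_smul, zero_smul, Finset.sum_ite_eq',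
      Finset.mem_univ, if_true]
  have h5 : (a⁻¹ : K ≃ₐ[ℂ] K) (f * v i) =
      ∑ j, ((M⁻¹ : GL (Fin n) ℂ) : Matrix (Fin n) (Fin n) ℂ) j i • v j := by
    rw [← h2]
    exact a.symm_apply_apply _
  rw [map_mul] at h5
  rw [← h5, ← mul_assoc, inv_mul_cancel₀ hf', one_mul]

theorem linRel_one {n : ℕ} (v : Fin n → K) : LinRel v (1 : K ≃ₐ[ℂ] K) 1 := by
  refine ⟨1, one_ne_zero, fun i => ?_⟩
  simp [Matrix.one_apply]

theorem fgen_of_model (hX : IsModel X) : ∃ s : Finset K, FGen (s : Set K) := by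
  obtain ⟨n, R, hn, hR, -⟩ := hX.charts
  obtain ⟨s, hs⟩ := (hR ⟨0, hn⟩).fg
  refine ⟨s, ?_⟩
  rw [FGen, eq_top_iff]
  intro f _
  obtain ⟨p, q, hq, h⟩ := (hR ⟨0, hn⟩).frac f
  have hle : R ⟨0, hn⟩ ≤ (IntermediateField.adjoin ℂ (s : Set K)).toSubalgebra := by
    rw [← hs]
    exact Algebra.adjoin_le (IntermediateField.subset_adjoin ℂ (s : Set K))
  have h1 : (p : K) ∈ IntermediateField.adjoin ℂ (s : Set K) := hle p.2
  have h2 : (q : K) ∈ IntermediateField.adjoin ℂ (s : Set K) := hle q.2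
  rw [eq_div_of_mul_eq hq h]
  exact div_mem h1 h2

end

theorem st_CORE2 (hVI : ST_VI) (hFINU : ST_FINU) (hKB2 : ST_KB2) (hFGF : ST_FGF)
    (hYSET : ST_YSET) (hCLS : ST_CLS) (hU : ST_U) (hE : ST_E) : ST_CORE2 := by
  classical
  intro G _ G₀ H B hH hI hred hsol hirrB K _ _ X hX ρ hrat hcx σ hσ
  set ρ₀ : G₀ →* (K ≃ₐ[ℂ] K) := ρ.comp G₀.subtype with hρ₀
  set A : Subgroup (K ≃ₐ[ℂ] K) := autX X (Set.range ρ) with hA
  have memA : ∀ a : K ≃ₐ[ℂ] K, a ∈ A ↔ Pres X a ∧ ∀ g, a * ρ g = ρ g * a := by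
    intro a
    rw [hA, mem_autX]
    constructor
    · rintro ⟨h1, h2⟩
      exact ⟨h1, fun g => h2 _ ⟨g, rfl⟩⟩
    · rintro ⟨h1, h2⟩
      refine ⟨h1, ?_⟩
      rintro b ⟨g, rfl⟩
      exact h2 g
  set S : Set (K ≃+* K) := {μ | IsRSX X ρ σ μ} with hS
  have hcomm : ∀ a ∈ A, ∀ g r, a (ρ g r) = ρ g (a r) := by
    intro a ha g r
    exact congrArg (fun u : K ≃ₐ[ℂ] K => u r) (((memA a).1 ha).2 g)
  have hsys : RSys X A S := by
    refine ⟨⟨Set.range ρ, fun a => Iff.rfl⟩, fun μ hμ => hμ.1, fun μ hμ => hμ.2.1,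
      fun μ hμ => hμ.2.2.2, ?_, ?_, ?_⟩
    · intro μ hμ a ha
      obtain ⟨h1, h2, h3, h4⟩ := hμ
      let a' : K ≃ₐ[ℂ] K :=
        { (μ.trans ((a : K ≃+* K).trans μ)) with
          commutes' := by
            intro c
            change μ (a (μ (algebraMap ℂ K c))) = _
            rw [h1, AlgEquiv.commutes, h1, Complex.conj_conj] }
      have ha' : ∀ r, a' r = μ (a (μ r)) := fun r => rfl
      refine ⟨a', ?_, ha'⟩
      rw [memA]
      refine ⟨?_, fun g => ?_⟩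
      · exact show Pres X (fun r => μ (a (μ r))) from
          pres_comp (a := μ) (b := fun r => a (μ r)) h4 (pres_comp ((memA a).1 ha).1 h4)
      · ext r
        rw [AlgEquiv.mul_apply, AlgEquiv.mul_apply, ha', ha', h3, hcomm a ha, h3]
        have h5 : ∀ r, ρ (σ (σ g)) r = ρ g r := by
          intro r
          have h6 := h3 (σ g) (μ r)
          rw [h2] at h6
          rw [← h6, ← h3, h2]
        rw [h5]
    · intro μ hμ a ha hinv
      obtain ⟨h1, h2, h3, h4⟩ := hμ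
      refine ⟨μ.trans (a : K ≃+* K), ⟨?_, ?_, ?_, ?_⟩, fun r => rfl⟩
      · intro c
        change a (μ (algebraMap ℂ K c)) = _
        rw [h1, AlgEquiv.commutes]
      · exact hinv
      · intro g r
        change a (μ (ρ g r)) = ρ (σ g) (a (μ r))
        rw [h3, hcomm a ha]
      · exact show Pres X (fun r => a (μ r)) from pres_comp ((memA a).1 ha).1 h4
    · intro μ hμ ν hν
      obtain ⟨h1, h2, h3, h4⟩ := hμ
      obtain ⟨k1, k2, k3, k4⟩ := hν
      let a' : K ≃ₐ[ℂ] K :=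
        { ν.trans μ with
          commutes' := by
            intro c
            change μ (ν (algebraMap ℂ K c)) = _
            rw [k1, h1, Complex.conj_conj] }
      have ha' : ∀ r, a' r = μ (ν r) := fun r => rfl
      refine ⟨a', ?_, fun r => by rw [ha', k2]⟩
      rw [memA]
      refine ⟨show Pres X (fun r => μ (ν r)) from pres_comp h4 k4, fun g => ?_⟩
      ext r
      rw [AlgEquiv.mul_apply, AlgEquiv.mul_apply, ha', ha', k3, h3]
      have h5 : ∀ r, ρ (σ (σ g)) r = ρ g r := by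
        intro r
        have h6 := h3 (σ g) (μ r)
        rw [h2] at h6
        rw [← h6, ← h3, h2]
      rw [h5]
  suffices hfin : FinRS A S by
    obtain ⟨T, hT1, hT2⟩ := hfin
    refine ⟨T, hT1, fun μ hμ => ?_⟩
    obtain ⟨ν, hν, a, ha, h⟩ := hT2 μ hμ
    exact ⟨ν, hν, a, ((memA a).1 ha).1, ((memA a).1 ha).2, h⟩
  have hfg := fgen_of_model hX
  have hcommA : ∀ a ∈ A, ∀ g : G₀, a * ρ₀ g = ρ₀ g * a := fun a ha g => ((memA a).1 ha).2 g
  by_cases hinv : ∀ f ∈ fixF ρ₀, ∃ c : ℂ, f = algebraMap ℂ K c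
  · -- no invariants
    obtain ⟨n, v, hv, hgen, hA'⟩ := hVI G₀ H hH K hfg ρ₀ hrat hinv
    obtain ⟨A'', hle, hidx, hlin⟩ := hA' A hcommA
    let A' : Subgroup (K ≃ₐ[ℂ] K) :=
      { carrier := {a | a ∈ A ∧ ∃ M : GL (Fin n) ℂ, LinRel v a M}
        mul_mem' := by
          rintro a b ⟨h1, M, h2⟩ ⟨h3, M', h4⟩
          exact ⟨A.mul_mem h1 h3, M * M', linRel_mul h2 h4⟩
        one_mem' := ⟨A.one_mem, 1, linRel_one v⟩
        inv_mem' := by
          rintro a ⟨h1, M, h2⟩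
          exact ⟨A.inv_mem h1, M⁻¹, linRel_inv h2⟩ }
    have hle' : A'' ≤ A' := fun a ha => ⟨hle ha, hlin a ha⟩
    have hidx' : A'.relIndex A ≠ 0 := fun h0 =>
      hidx (Nat.eq_zero_of_zero_dvd (h0 ▸ Subgroup.relIndex_dvd_of_le_left A hle'))
    refine hFINU K X A S hX hsys A' (fun a ha => ha.1) hidx' 0 1 n v hv hgen ⊤ ?_ ?_ ?_
    · exact ⟨∅, by ext g; simp⟩
    · intro a
      refine ⟨fun _ => ?_, fun _ => rfl⟩
      obtain ⟨-, M, hM⟩ := a.2
      exact ⟨M, trivial, hM⟩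
    · rintro a ha ⟨M, -, hM⟩
      exact ⟨ha, M, hM⟩
  · push Not at hinv
    obtain ⟨t, ht, htc⟩ := hinv
    have hBF : ∀ z : K, (∀ b ∈ B, ρ₀ b z = z) → z ∈ fixF ρ₀ :=
      hKB2 G₀ H hH hI K ρ₀ hrat B hcx ⟨t, ht, htc⟩
    have hff : FF (fixF ρ₀) := by
      refine hFGF K hfg (fixF ρ₀) ?_ ⟨⟨t, ht⟩, fun c h => htc c (congrArg Subtype.val h)⟩
      intro f g
      obtain ⟨p, hp, h⟩ := hcx f g (fun b _ => f.2 b) (fun b _ => g.2 b)
      refine ⟨p, hp, ?_⟩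
      apply Subtype.ext
      have h2 : (((aeval ![f, g]) p : fixF ρ₀) : K) = aeval ![(f : K), (g : K)] p := by
        change (fixF ρ₀).val (aeval ![f, g] p) = _
        rw [← AlgHom.comp_apply, comp_aeval]
        congr 2
        funext i
        fin_cases i <;> rfl
      rw [h2, h]
      rfl
    obtain ⟨n, y, hy0, hy1, hygen, hyA⟩ :=
      hYSET G₀ H hH hred B hsol hirrB K hfg ρ₀ hrat hBF
    have hdata : CaseData X A S (fixF ρ₀) n y := by
      refine ⟨hX, hsys, hff, ?_, ?_, hy0, hy1, hygen, hyA A hcommA⟩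
      · intro a ha f hf g
        change ρ g (a f) = a f
        rw [← hcomm a ha]
        exact congrArg a (hf g)
      · intro μ hμ f hf g
        obtain ⟨h1, h2, h3, h4⟩ := hμ
        change ρ g (μ f) = μ f
        have hg : σ.symm g ∈ G₀ := by
          rw [hσ, MulEquiv.apply_symm_apply]
          exact g.2
        have h5 := h3 (σ.symm g) f
        rw [MulEquiv.apply_symm_apply] at h5
        rw [← h5]
        exact congrArg μ (hf ⟨σ.symm g, hg⟩)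
    by_cases hhit : (Hit X (fixF ρ₀))ᶜ.Nonempty
    · exact hU K X A S (fixF ρ₀) n y hdata (Or.inl hhit)
    · rcases hCLS (fixF ρ₀) hff with h | h
      · exact hU K X A S (fixF ρ₀) n y hdata (Or.inr h)
      · refine hE K X A S (fixF ρ₀) n y hdata ?_ h
        rw [Set.not_nonempty_iff_eq_empty, Set.compl_empty_iff] at hhit
        exact hhit

end Pool.Agent.Helper43.FV
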