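import Pool.Agent.Helper43.RS.Spec
import Pool.Agent.Helper43.RS.Geo

/-!
# Equivariant real structures on arbitrary varieties of complexity one: definitions

A variety is described by its field of rational functions `K` and the set `X` of the local rings
of its points (subalgebras of `K`).
-/

namespace Pool.Agent.Helper43.FV

open Pool.Agent.Helper43.RS
open scoped ComplexConjugate TensorProduct
open MvPolynomial

section Models

variable {K : Type} [Field K] [Algebra ℂ K]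

/-- `K` is generated by `s` as a field over `ℂ`. -/
def FGen (s : Set K) : Prop := IntermediateField.adjoin ℂ s = ⊤

/-- The local ring of a point `φ` of a subalgebra `R` of a field: fractions `p / q`, `φ q ≠ 0`. -/
def locAt (R : Subalgebra ℂ K) (φ : R →ₐ[ℂ] ℂ) : Subalgebra ℂ K where
  carrier := {f | ∃ p q : R, φ q ≠ 0 ∧ f * q = p}
  mul_mem' := by
    rintro a b ⟨p, q, h1, h2⟩ ⟨p', q', h1', h2'⟩
    refine ⟨p * p', q * q', by rw [map_mul]; exact mul_ne_zero h1 h1', ?_⟩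
    push_cast
    rw [← h2, ← h2']
    ring
  add_mem' := by
    rintro a b ⟨p, q, h1, h2⟩ ⟨p', q', h1', h2'⟩
    refine ⟨p * q' + p' * q, q * q', by rw [map_mul]; exact mul_ne_zero h1 h1', ?_⟩
    push_cast
    rw [← h2, ← h2']
    ring
  algebraMap_mem' := by
    intro c
    exact ⟨algebraMap ℂ R c, 1, by simp, by simp⟩

theorem mem_locAt {R : Subalgebra ℂ K} {φ : R →ₐ[ℂ] ℂ} {f : K} :
    f ∈ locAt R φ ↔ ∃ p q : R, φ q ≠ 0 ∧ f * q = p := Iff.rfl

/-- Affine charts: finitely generated, integrally closed, with fraction field `K`. -/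
structure IsChart (R : Subalgebra ℂ K) : Prop where
  fg : R.FG
  ic : ∀ f : K, IsIntegral R f → f ∈ R
  frac : ∀ f : K, ∃ p q : R, (q : K) ≠ 0 ∧ f * q = p

/-- Models of `K`: sets of local rings of points, covered by finitely many charts and
separated. -/
structure IsModel (X : Set (Subalgebra ℂ K)) : Prop where
  charts : ∃ (n : ℕ) (R : Fin n → Subalgebra ℂ K), 0 < n ∧ (∀ i, IsChart (R i)) ∧
    ∀ O, O ∈ X ↔ ∃ i, ∃ φ : R i →ₐ[ℂ] ℂ, O = locAt (R i) φ
  sep : ∀ O ∈ X, ∀ O' ∈ X, O ≤ O' → O = O'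

/-- The bijection `a` of `K` maps the set `X` of local rings onto itself. -/
def Pres (X : Set (Subalgebra ℂ K)) (a : K → K) : Prop :=
  (∀ O ∈ X, ∃ O' ∈ X, ∀ f, f ∈ O ↔ a f ∈ O') ∧ ∀ O' ∈ X, ∃ O ∈ X, ∀ f, f ∈ O ↔ a f ∈ O'

/-- `a` acts on the span of `v` as the matrix `T`, up to a common factor from the field. -/
def LinRel {n : ℕ} (v : Fin n → K) (a : K → K) (T : GL (Fin n) ℂ) : Prop :=
  ∃ f : K, f ≠ 0 ∧ ∀ i, a (v i) = f * ∑ j, (T : Matrix (Fin n) (Fin n) ℂ) j i • v j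

/-- The ratios of the `v i` generate the field. -/
def RatGen {n : ℕ} (v : Fin n → K) : Prop := FGen {x : K | ∃ i j, x = v i / v j}

/-- A system of real structures: `A` is the group of all automorphisms of the model commuting
with a set of automorphisms, `S` a set of antilinear involutions forming (with `A`) one coset. -/
structure RSys (X : Set (Subalgebra ℂ K)) (A : Subgroup (K ≃ₐ[ℂ] K)) (S : Set (K ≃+* K)) :
    Prop where
  mem : ∃ C : Set (K ≃ₐ[ℂ] K), ∀ a, a ∈ A ↔ Pres X a ∧ ∀ b ∈ C, a * b = b * a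
  anti : ∀ μ ∈ S, ∀ c : ℂ, μ (algebraMap ℂ K c) = algebraMap ℂ K (conj c)
  invol : ∀ μ ∈ S, ∀ r, μ (μ r) = r
  pres : ∀ μ ∈ S, Pres X μ
  norm : ∀ μ ∈ S, ∀ a ∈ A, ∃ a' ∈ A, ∀ r, a' r = μ (a (μ r))
  closed : ∀ μ ∈ S, ∀ a ∈ A, (∀ r, a (μ (a (μ r))) = r) → ∃ ν ∈ S, ∀ r, ν r = a (μ r)
  diff : ∀ μ ∈ S, ∀ ν ∈ S, ∃ a ∈ A, ∀ r, μ r = a (ν r)

/-- finitely many classes of real structures modulo `A` -/
def FinRS (A : Subgroup (K ≃ₐ[ℂ] K)) (S : Set (K ≃+* K)) : Prop :=
  ∃ T : Finset (K ≃+* K), (∀ μ ∈ T, μ ∈ S) ∧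
    ∀ μ ∈ S, ∃ ν ∈ T, ∃ a ∈ A, ∀ r, μ r = a (ν (a.symm r))

end Models

section Families

/-- Regular families of elements of `K` parametrized by the points of `S`. -/
def Fam {S K : Type} [CommRing S] [Algebra ℂ S] [Field K] [Algebra ℂ K]
    (P : (S →ₐ[ℂ] ℂ) → K) : Prop :=
  ∃ (n : ℕ) (s : Fin n → S) (k : Fin n → K), ∀ z, P z = ∑ i, z (s i) • k i

/-- Zariski dense sets of points of `S`. -/
def DensePts {S : Type} [CommRing S] [Algebra ℂ S] (Γ : Set (S →ₐ[ℂ] ℂ)) : Prop :=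
  ∀ s : S, (∀ γ ∈ Γ, γ s = 0) → s = 0

/-- Evaluation of the first factor of `S ⊗ R`. -/
noncomputable def evT {S R : Type} [CommRing S] [Algebra ℂ S] [CommRing R] [Algebra ℂ R]
    (z : S →ₐ[ℂ] ℂ) : S ⊗[ℂ] R →ₐ[ℂ] R :=
  Algebra.TensorProduct.lift ((Algebra.ofId ℂ R).comp z) (AlgHom.id ℂ R)
    (fun _ _ => Commute.all _ _)

/-- Regular families of elements of `K` parametrized by a set `G` with an algebra of functions. -/
def GFam {G K : Type} [Field K] [Algebra ℂ K] (H : Subalgebra ℂ (G → ℂ)) (P : G → K) : Prop :=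
  ∃ (n : ℕ) (h : Fin n → G → ℂ) (k : Fin n → K), (∀ i, h i ∈ H) ∧
    ∀ g, P g = ∑ i, h i g • k i

/-- Rational action of `G` on the field `K`. -/
def RatAct {G K : Type} [Group G] [Field K] [Algebra ℂ K] (H : Subalgebra ℂ (G → ℂ))
    (ρ : G →* (K ≃ₐ[ℂ] K)) : Prop :=
  ∀ f : K, ∃ N D : G → K, GFam H N ∧ GFam H D ∧ D 1 ≠ 0 ∧ ∀ g, D g * ρ g f = N g

/-- The field of invariants. -/
def fixF {G K : Type} [Group G] [Field K] [Algebra ℂ K] (ρ : G →* (K ≃ₐ[ℂ] K)) :
    IntermediateField ℂ K where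
  carrier := {f | ∀ g, ρ g f = f}
  mul_mem' := by
    intro a b ha hb g
    rw [map_mul, ha g, hb g]
  add_mem' := by
    intro a b ha hb g
    rw [map_add, ha g, hb g]
  algebraMap_mem' := by
    intro c g
    exact (ρ g).commutes c
  inv_mem' := by
    intro a ha g
    rw [map_inv₀, ha g]

theorem mem_fixF {G K : Type} [Group G] [Field K] [Algebra ℂ K] {ρ : G →* (K ≃ₐ[ℂ] K)}
    {f : K} : f ∈ fixF ρ ↔ ∀ g, ρ g f = f := Iff.rfl

end Families

section Curves

/-- Normalized discrete valuations of a field, trivial on `ℂ` (as functions with value `0`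
at `0`). -/
structure IsPlace {F : Type} [Field F] [Algebra ℂ F] (w : F → ℤ) : Prop where
  zero : w 0 = 0
  mul : ∀ f g : F, f ≠ 0 → g ≠ 0 → w (f * g) = w f + w g
  add : ∀ f g : F, f ≠ 0 → g ≠ 0 → f + g ≠ 0 → min (w f) (w g) ≤ w (f + g)
  const : ∀ c : ℂ, w (algebraMap ℂ F c) = 0
  one : ∃ t : F, t ≠ 0 ∧ w t = 1

/-- Function fields of one variable over `ℂ`. -/
structure FF (F : Type) [Field F] [Algebra ℂ F] : Prop where
  fg : ∃ s : Finset F, FGen (s : Set F)
  nonconst : ∃ t : F, ∀ c : ℂ, t ≠ algebraMap ℂ F c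
  dep : ∀ f g : F, AlgDep f g

/-- Places. -/
abbrev Pl (F : Type) [Field F] [Algebra ℂ F] : Type := {w : F → ℤ // IsPlace w}

/-- Divisors. -/
abbrev Dv (F : Type) [Field F] [Algebra ℂ F] : Type := Pl F →₀ ℤ

/-- Degree of a divisor. -/
noncomputable def dg {F : Type} [Field F] [Algebra ℂ F] (D : Dv F) : ℤ := D.sum fun _ n => n

/-- The Riemann-Roch space of a divisor. -/
def LL {F : Type} [Field F] [Algebra ℂ F] (D : Dv F) : Submodule ℂ F where
  carrier := {f | f ≠ 0 → ∀ w : Pl F, 0 ≤ w.1 f + D w}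
  zero_mem' := fun h => absurd rfl h
  add_mem' := by
    intro a b ha hb hab w
    by_cases h1 : a = 0
    · subst h1
      rw [zero_add] at hab ⊢
      exact hb hab w
    by_cases h2 : b = 0
    · subst h2
      rw [add_zero]
      exact ha h1 w
    have h3 := w.2.add a b h1 h2 hab
    have h4 := ha h1 w
    have h5 := hb h2 w
    rcases min_choice (w.1 a) (w.1 b) with h | h <;> rw [h] at h3 <;> omega
  smul_mem' := by
    intro c a ha hca w
    rw [Algebra.smul_def] at hca ⊢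
    have hc : algebraMap ℂ F c ≠ 0 := left_ne_zero_of_mul hca
    have h1 : a ≠ 0 := right_ne_zero_of_mul hca
    rw [w.2.mul _ _ hc h1, w.2.const]
    have := ha h1 w
    omega

theorem mem_LL {F : Type} [Field F] [Algebra ℂ F] {D : Dv F} {f : F} :
    f ∈ LL D ↔ (f ≠ 0 → ∀ w : Pl F, 0 ≤ w.1 f + D w) := Iff.rfl

/-- dimension of the Riemann-Roch space -/
noncomputable def ll {F : Type} [Field F] [Algebra ℂ F] (D : Dv F) : ℤ :=
  (Module.finrank ℂ (LL D) : ℤ)

/-- `D'` is the divisor of `f`. -/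
def IsDiv {F : Type} [Field F] [Algebra ℂ F] (f : F) (D : Dv F) : Prop :=
  ∀ w : Pl F, D w = w.1 f

/-- linear equivalence -/
def LinEq {F : Type} [Field F] [Algebra ℂ F] (D D' : Dv F) : Prop :=
  ∃ f : F, f ≠ 0 ∧ ∀ w : Pl F, D w = D' w + w.1 f

/-- The image of a place under a (semilinear) field automorphism. -/
theorem isPlace_comp {F : Type} [Field F] [Algebra ℂ F] {w : F → ℤ} (hw : IsPlace w)
    (a : F ≃ₐ[ℂ] F) : IsPlace (fun f => w (a.symm f)) where
  zero := by simp [hw.zero]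
  mul f g hf hg := by
    rw [map_mul]
    exact hw.mul _ _ (by simpa using hf) (by simpa using hg)
  add f g hf hg hfg := by
    have h := hw.add (a.symm f) (a.symm g) (by simpa using hf) (by simpa using hg)
      (by rw [← map_add]; exact (map_ne_zero a.symm).mpr hfg)
    rwa [← map_add] at h
  const c := by
    rw [AlgEquiv.commutes]
    exact hw.const c
  one := by
    obtain ⟨t, ht, h⟩ := hw.one
    exact ⟨a t, by simpa using ht, by simpa using h⟩

/-- action of automorphisms on places: `(a p) (f) = p (a⁻¹ f)` -/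
def actPl {F : Type} [Field F] [Algebra ℂ F] (a : F ≃ₐ[ℂ] F) (w : Pl F) : Pl F :=
  ⟨fun f => w.1 (a.symm f), isPlace_comp w.2 a⟩

end Curves

section Divisors

variable {K : Type} [Field K] [Algebra ℂ K]

/-- prime divisors of a model: the discrete valuations whose ring is a localization of the local
ring of a point -/
def DivX (X : Set (Subalgebra ℂ K)) : Set (K → ℤ) :=
  {v | IsPlace v ∧ ∃ O ∈ X, (∀ p ∈ O, 0 ≤ v p) ∧
    ∀ f : K, 0 ≤ v f → ∃ p ∈ O, ∃ q ∈ O, q ≠ 0 ∧ v q = 0 ∧ f * q = p}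

/-- `v` lies over the place `w` of the subfield `F` with ramification index `e` -/
def Over (F : IntermediateField ℂ K) (v : K → ℤ) (e : ℤ) (w : F → ℤ) : Prop :=
  0 < e ∧ ∀ f : F, v f = e * w f

/-- places of `F` under a prime divisor of `X` -/
def Hit (X : Set (Subalgebra ℂ K)) (F : IntermediateField ℂ K) : Set (Pl F) :=
  {w | ∃ v ∈ DivX X, ∃ e : ℤ, Over F v e w.1}

/-- `b` is the restriction of `a` to the subfield `F` -/
def ResTo (F : IntermediateField ℂ K) (a : K → K) (b : F → F) : Prop :=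
  ∀ f : F, ((b f : F) : K) = a f

end Divisors

end Pool.Agent.Helper43.FV
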