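import Pool.Agent.Helper34.FV.ELLI
import Pool.Agent.Helper53.FV.CLS

/-!
# Genus one: Weierstrass coordinates
-/

namespace Pool.Agent.Helper43.FV

section

variable {F : Type} [Field F] [Algebra ℂ F]

theorem ELLW_Bd_sum {w : F → ℤ} (hw : IsPlace w) {n : ℤ} {ι : Type} (s : Finset ι) (g : ι → F)
    (h : ∀ i ∈ s, ELLI_Bd w n (g i)) : ELLI_Bd w n (∑ i ∈ s, g i) := by
  classical
  induction s using Finset.induction_on with
  | empty => exact Or.inl (by simp)
  | insert i s hi ih =>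
    rw [Finset.sum_insert hi]
    exact ELLI_Bd_add hw (h i (by simp)) (ih fun j hj => h j (by simp [hj]))

/-- independence from distinct valuations -/
theorem ELLW_indep (o : Pl F) {ι : Type} (s : Finset ι) (f : ι → F) (h0 : ∀ i ∈ s, f i ≠ 0)
    (hinj : ∀ i ∈ s, ∀ j ∈ s, i ≠ j → o.1 (f i) ≠ o.1 (f j)) (c : ι → ℂ)
    (hc : ∑ i ∈ s, c i • f i = 0) : ∀ i ∈ s, c i = 0 := by
  classical
  by_contra hcon
  push Not at hcon
  obtain ⟨i₀, hi₀, hci₀⟩ := hcon
  obtain ⟨i, hi, hmin⟩ := Finset.exists_min_image (s.filter fun i => c i ≠ 0)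
    (fun i => o.1 (f i)) ⟨i₀, by simp [hi₀, hci₀]⟩
  rw [Finset.mem_filter] at hi
  rw [← Finset.add_sum_erase _ _ hi.1, Algebra.smul_def] at hc
  refine hi.2 (ELLI_top o.2 (h0 i hi.1) (g := ∑ j ∈ s.erase i, c j • f j) ?_ (c i) hc)
  refine ELLW_Bd_sum o.2 _ _ fun j hj => ?_
  rw [Finset.mem_erase] at hj
  by_cases hcj : c j = 0
  · exact Or.inl (by rw [hcj, zero_smul])
  · have h1 := hmin j (by rw [Finset.mem_filter]; exact ⟨hj.2, hcj⟩)
    have h2 := hinj j hj.2 i hi.1 hj.1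
    have h3 : o.1 (f i) + 1 ≤ o.1 (f j) := by
      have : o.1 (f i) ≤ o.1 (f j) := h1
      omega
    right
    rw [Algebra.smul_def, o.2.mul _ _ ((map_ne_zero _).mpr hcj) (h0 j hj.2), o.2.const, zero_add]
    exact h3

theorem ELLW_mem {o : Pl F} {n : ℤ} {f : F} : f ∈ LL (Finsupp.single o n : Dv F) ↔
    ELLI_Bd o.1 (-n) f ∧ ∀ w : Pl F, w ≠ o → ELLI_Bd w.1 0 f := by
  rw [mem_LL]
  constructor
  · intro h
    by_cases hf : f = 0
    · exact ⟨Or.inl hf, fun w _ => Or.inl hf⟩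
    · refine ⟨Or.inr ?_, fun w hw => Or.inr ?_⟩
      · have := h hf o
        rw [Finsupp.single_eq_same] at this
        omega
      · have := h hf w
        rw [Finsupp.single_eq_of_ne hw] at this
        omega
  · rintro ⟨h1, h2⟩ hf w
    by_cases hw : w = o
    · subst hw
      rw [Finsupp.single_eq_same]
      rcases h1 with h1 | h1
      · exact absurd h1 hf
      · omega
    · rw [Finsupp.single_eq_of_ne hw]
      rcases h2 w hw with h1 | h1
      · exact absurd h1 hf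
      · omega

theorem ELLW_Bd_smul {w : F → ℤ} (hw : IsPlace w) {n : ℤ} {f : F} (c : ℂ)
    (hf : ELLI_Bd w n f) : ELLI_Bd w n (algebraMap ℂ F c * f) :=
  ELLI_Bd_mono (ELLI_Bd_mul hw (ELLI_Bd_const hw c) hf) (by omega)

theorem ELLW_one (w : Pl F) : w.1 1 = 0 := by
  have := w.2.const 1
  rwa [map_one] at this

section

variable (hll : ∀ D : Dv F, 1 ≤ dg D → ll D = dg D)

include hll

theorem ELLW_rank (o : Pl F) {n : ℕ} (hn : 1 ≤ n) :
    Module.finrank ℂ (LL (Finsupp.single o (n : ℤ) : Dv F)) = n := by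
  have h1 : dg (Finsupp.single o (n : ℤ) : Dv F) = n := CLS_dg_single _ _
  have h2 := hll (Finsupp.single o (n : ℤ)) (by rw [h1]; exact_mod_cast hn)
  rw [h1] at h2
  unfold ll at h2
  exact_mod_cast h2

theorem ELLW_findim (o : Pl F) {n : ℕ} (hn : 1 ≤ n) :
    Module.Finite ℂ (LL (Finsupp.single o (n : ℤ) : Dv F)) := by
  apply Module.finite_of_finrank_pos
  rw [ELLW_rank hll o hn]
  omega

omit hll in
theorem ELLW_li (o : Pl F) {N : ℕ} (f : Fin N → F) (h0 : ∀ i, f i ≠ 0)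
    (hinj : ∀ i j, i ≠ j → o.1 (f i) ≠ o.1 (f j)) : LinearIndependent ℂ f := by
  rw [Fintype.linearIndependent_iff]
  intro c hc i
  exact ELLW_indep o Finset.univ f (fun i _ => h0 i) (fun i _ j _ h => hinj i j h) c hc i
    (Finset.mem_univ i)

theorem ELLW_card (o : Pl F) {n : ℕ} (hn : 1 ≤ n) {N : ℕ} (f : Fin N → F)
    (hli : LinearIndependent ℂ f)
    (hm : ∀ i, f i ∈ LL (Finsupp.single o (n : ℤ) : Dv F)) : N ≤ n := by
  have h1 := finrank_span_eq_card hli
  have h2 : Submodule.span ℂ (Set.range f) ≤ LL (Finsupp.single o (n : ℤ) : Dv F) := by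
    rw [Submodule.span_le]
    rintro _ ⟨i, rfl⟩
    exact hm i
  have := ELLW_findim hll o hn
  have h3 := Submodule.finrank_mono h2
  rw [h1, ELLW_rank hll o hn, Fintype.card_fin] at h3
  exact h3

theorem ELLW_span (o : Pl F) {n : ℕ} (hn : 1 ≤ n) (f : Fin n → F)
    (hli : LinearIndependent ℂ f)
    (hm : ∀ i, f i ∈ LL (Finsupp.single o (n : ℤ) : Dv F)) :
    LL (Finsupp.single o (n : ℤ) : Dv F) = Submodule.span ℂ (Set.range f) := by
  have h1 := finrank_span_eq_card hli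
  have h2 : Submodule.span ℂ (Set.range f) ≤ LL (Finsupp.single o (n : ℤ) : Dv F) := by
    rw [Submodule.span_le]
    rintro _ ⟨i, rfl⟩
    exact hm i
  have := ELLW_findim hll o hn
  refine (Submodule.eq_of_le_of_finrank_le h2 ?_).symm
  rw [h1, ELLW_rank hll o hn, Fintype.card_fin]

theorem ELLW_next (o : Pl F) {n : ℕ} (hn : 1 ≤ n) : ∃ f : F, f ≠ 0 ∧ o.1 f = -(n + 1 : ℤ) ∧
    ∀ w : Pl F, w ≠ o → ELLI_Bd w.1 0 f := by
  have h1 : ¬ (LL (Finsupp.single o ((n + 1 : ℕ) : ℤ) : Dv F) ≤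
      LL (Finsupp.single o (n : ℤ) : Dv F)) := by
    intro hle
    have := ELLW_findim hll o hn
    have h3 := Submodule.finrank_mono hle
    rw [ELLW_rank hll o hn, ELLW_rank hll o (by omega)] at h3
    omega
  obtain ⟨f, hf1, hf2⟩ := SetLike.not_le_iff_exists.mp h1
  rw [ELLW_mem] at hf1 hf2
  have hf0 : f ≠ 0 := by
    rintro rfl
    exact hf2 ⟨Or.inl rfl, fun w _ => Or.inl rfl⟩
  refine ⟨f, hf0, ?_, hf1.2⟩
  have h2 : ¬ (-(n : ℤ) ≤ o.1 f) := fun h => hf2 ⟨Or.inr h, hf1.2⟩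
  rcases hf1.1 with h | h
  · exact absurd h hf0
  · push_cast at h
    omega

end

/-- the data of the pair `(x, y)` -/
structure ELLWPair (o : Pl F) (x y : F) : Prop where
  x0 : x ≠ 0
  y0 : y ≠ 0
  ox : o.1 x = -2
  oy : o.1 y = -3
  rx : ∀ w : Pl F, w ≠ o → ELLI_Bd w.1 0 x
  ry : ∀ w : Pl F, w ≠ o → ELLI_Bd w.1 0 y

theorem ELLW_mon {o : Pl F} {x y : F} (h : ELLWPair o x y) (a b : ℕ) :
    x ^ a * y ^ b ≠ 0 ∧ o.1 (x ^ a * y ^ b) = -(2 * a + 3 * b : ℤ) ∧
      ∀ w : Pl F, w ≠ o → ELLI_Bd w.1 0 (x ^ a * y ^ b) := by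
  have hp : ∀ (z : F), z ≠ 0 → ∀ n : ℕ, o.1 (z ^ n) = n * o.1 z := by
    intro z hz n
    induction n with
    | zero => rw [pow_zero, ELLW_one]; simp
    | succ n ih =>
      rw [pow_succ, o.2.mul _ _ (pow_ne_zero n hz) hz, ih]
      push_cast
      ring
  have hq : ∀ (z : F) (w : Pl F), ELLI_Bd w.1 0 z → ∀ n : ℕ, ELLI_Bd w.1 0 (z ^ n) := by
    intro z w hz n
    induction n with
    | zero => rw [pow_zero]; exact Or.inr (by rw [ELLW_one])
    | succ n ih =>
      rw [pow_succ]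
      exact ELLI_Bd_mul w.2 ih hz
  refine ⟨mul_ne_zero (pow_ne_zero _ h.x0) (pow_ne_zero _ h.y0), ?_, ?_⟩
  · rw [o.2.mul _ _ (pow_ne_zero _ h.x0) (pow_ne_zero _ h.y0), hp x h.x0, hp y h.y0, h.ox, h.oy]
    ring
  · intro w hw
    exact ELLI_Bd_mul w.2 (hq x w (h.rx w hw) a) (hq y w (h.ry w hw) b)

/-- affine changes of coordinates -/
theorem ELLW_change {o : Pl F} {x y : F} (h : ELLWPair o x y) {b : ℂ} (hb : b ≠ 0)
    (s u v : ℂ) : ELLWPair o (algebraMap ℂ F b * x + algebraMap ℂ F s)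
      (algebraMap ℂ F b * y + (algebraMap ℂ F u * x + algebraMap ℂ F v)) := by
  have hb' : algebraMap ℂ F b ≠ 0 := (map_ne_zero _).mpr hb
  have h1 : o.1 (algebraMap ℂ F b * x) = -2 := by
    rw [o.2.mul _ _ hb' h.x0, o.2.const, h.ox]
    norm_num
  have h2 : o.1 (algebraMap ℂ F b * y) = -3 := by
    rw [o.2.mul _ _ hb' h.y0, o.2.const, h.oy]
    norm_num
  have h3 := ELLI_strict o.2 (mul_ne_zero hb' h.x0) (g := algebraMap ℂ F s)
    (by rw [h1]; exact ELLI_Bd_mono (ELLI_Bd_const o.2 s) (by norm_num))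
  have h4 := ELLI_strict o.2 (mul_ne_zero hb' h.y0)
    (g := algebraMap ℂ F u * x + algebraMap ℂ F v)
    (by
      rw [h2]
      refine ELLI_Bd_add o.2 (ELLW_Bd_smul o.2 u (Or.inr ?_))
        (ELLI_Bd_mono (ELLI_Bd_const o.2 v) (by norm_num))
      rw [h.ox]
      norm_num)
  refine ⟨h3.1, h4.1, h3.2.trans h1, h4.2.trans h2, fun w hw => ?_, fun w hw => ?_⟩
  · exact ELLI_Bd_add w.2 (ELLW_Bd_smul w.2 b (h.rx w hw)) (ELLI_Bd_const w.2 s)
  · exact ELLI_Bd_add w.2 (ELLW_Bd_smul w.2 b (h.ry w hw))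
      (ELLI_Bd_add w.2 (ELLW_Bd_smul w.2 u (h.rx w hw)) (ELLI_Bd_const w.2 v))

/-- the equation -/
theorem ELLW_eqn (hll : ∀ D : Dv F, 1 ≤ dg D → ll D = dg D) {o : Pl F} {x y : F}
    (h : ELLWPair o x y) : ∃ (A B : ℂ) (X Y : F), ELLWPair o X Y ∧
      Y ^ 2 = X ^ 3 + algebraMap ℂ F A * X + algebraMap ℂ F B := by
  let ea : Fin 7 → ℕ := ![0, 1, 0, 2, 1, 0, 3]
  let eb : Fin 7 → ℕ := ![0, 0, 1, 0, 1, 2, 0]
  let f : Fin 7 → F := fun i => x ^ ea i * y ^ eb i
  have hf0 : ∀ i, f i ≠ 0 := fun i => (ELLW_mon h _ _).1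
  have hval : ∀ i, o.1 (f i) = -(2 * ea i + 3 * eb i : ℤ) := fun i => (ELLW_mon h _ _).2.1
  have hne5 : ∀ i j : Fin 7, i ≠ 5 → j ≠ 5 → i ≠ j → 2 * ea i + 3 * eb i ≠ 2 * ea j + 3 * eb j := by
    decide
  have hne6 : ∀ i j : Fin 7, i ≠ 6 → j ≠ 6 → i ≠ j → 2 * ea i + 3 * eb i ≠ 2 * ea j + 3 * eb j := by
    decide
  have hle6 : ∀ i : Fin 7, 2 * ea i + 3 * eb i ≤ 6 := by decide
  have hm : ∀ i, f i ∈ LL (Finsupp.single o ((6 : ℕ) : ℤ) : Dv F) := by
    intro i
    rw [ELLW_mem]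
    refine ⟨Or.inr ?_, (ELLW_mon h _ _).2.2⟩
    rw [hval]
    have := hle6 i
    push_cast
    omega
  have hnli : ¬ LinearIndependent ℂ f := by
    intro hli
    have := ELLW_card hll o (by norm_num) f hli hm
    omega
  rw [Fintype.not_linearIndependent_iff] at hnli
  obtain ⟨g, hg, i₀, hi₀⟩ := hnli
  have key : ∀ t : Fin 7, (∀ i j : Fin 7, i ≠ t → j ≠ t → i ≠ j →
      2 * ea i + 3 * eb i ≠ 2 * ea j + 3 * eb j) → g t ≠ 0 := by
    intro t ht hgt
    rw [← Finset.add_sum_erase _ _ (Finset.mem_univ t), hgt, zero_smul, zero_add] at hg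
    have h1 := ELLW_indep o (Finset.univ.erase t) f (fun i _ => hf0 i) (by
      intro i hi j hj hij
      rw [Finset.mem_erase] at hi hj
      have := ht i j hi.1 hj.1 hij
      rw [hval, hval]
      omega) g hg
    by_cases h2 : i₀ = t
    · rw [h2] at hi₀
      exact hi₀ hgt
    · exact hi₀ (h1 i₀ (by simp [h2]))
  have g5 := key 5 hne5
  have g6 := key 6 hne6
  let k : ℂ →+* F := algebraMap ℂ F
  have hrel : k (g 0) + k (g 1) * x + k (g 2) * y + k (g 3) * x ^ 2 + k (g 4) * (x * y) +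
      k (g 5) * y ^ 2 + k (g 6) * x ^ 3 = 0 := by
    rw [← hg, Fin.sum_univ_seven]
    simp only [Algebra.smul_def]
    show _ = k (g 0) * (x ^ 0 * y ^ 0) + k (g 1) * (x ^ 1 * y ^ 0) + k (g 2) * (x ^ 0 * y ^ 1) +
      k (g 3) * (x ^ 2 * y ^ 0) + k (g 4) * (x ^ 1 * y ^ 1) + k (g 5) * (x ^ 0 * y ^ 2) +
      k (g 6) * (x ^ 3 * y ^ 0)
    ring
  obtain ⟨r, hr⟩ : ∃ r : ℂ, r * g 5 = 1 := ⟨(g 5)⁻¹, inv_mul_cancel₀ g5⟩
  obtain ⟨u, hu⟩ : ∃ u : ℂ, 2 * u = r * g 4 := ⟨r * g 4 / 2, by ring⟩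
  obtain ⟨v, hv⟩ : ∃ v : ℂ, 2 * v = r * g 2 := ⟨r * g 2 / 2, by ring⟩
  obtain ⟨s, hs⟩ : ∃ s : ℂ, 3 * s - u ^ 2 = -(r * g 3) := ⟨(-(r * g 3) + u ^ 2) / 3, by ring⟩
  have hr0 : r ≠ 0 := left_ne_zero_of_mul_eq_one hr
  have hb : -(r * g 6) ≠ 0 := neg_ne_zero.mpr (mul_ne_zero hr0 g6)
  have hr' : k r * k (g 5) = 1 := by rw [← map_mul, hr, map_one]
  have hu' : 2 * k u = k r * k (g 4) := by
    rw [← map_mul, ← hu, map_mul, map_ofNat]
  have hv' : 2 * k v = k r * k (g 2) := by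
    rw [← map_mul, ← hv, map_mul, map_ofNat]
  have hs' : 3 * k s - k u ^ 2 = -(k r * k (g 3)) := by
    have := congrArg k hs
    rw [map_sub, map_neg, map_mul, map_mul, map_pow, map_ofNat] at this
    exact this
  let b : ℂ := -(r * g 6)
  let b1 : ℂ := -(r * g 1)
  let b0 : ℂ := -(r * g 0)
  refine ⟨b * (b1 + 2 * u * v) - 3 * s ^ 2,
    2 * s ^ 3 - b * (b1 + 2 * u * v) * s + b ^ 2 * (b0 + v ^ 2),
    k b * x + k s, k b * y + (k (b * u) * x + k (b * v)),
    ELLW_change h hb s (b * u) (b * v), ?_⟩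
  have hE : y ^ 2 + 2 * k u * (x * y) + 2 * k v * y =
      k b * x ^ 3 + (3 * k s - k u ^ 2) * x ^ 2 + k b1 * x + k b0 := by
    have e1 : k b = -(k r * k (g 6)) := by
      show k (-(r * g 6)) = _
      rw [map_neg, map_mul]
    have e2 : k b1 = -(k r * k (g 1)) := by
      show k (-(r * g 1)) = _
      rw [map_neg, map_mul]
    have e3 : k b0 = -(k r * k (g 0)) := by
      show k (-(r * g 0)) = _
      rw [map_neg, map_mul]
    rw [e1, e2, e3, hs', hu', hv']
    linear_combination k r * hrel - y ^ 2 * hr'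
  show (k b * y + (k (b * u) * x + k (b * v))) ^ 2 = (k b * x + k s) ^ 3 +
    k (b * (b1 + 2 * u * v) - 3 * s ^ 2) * (k b * x + k s) +
    k (2 * s ^ 3 - b * (b1 + 2 * u * v) * s + b ^ 2 * (b0 + v ^ 2))
  simp only [map_add, map_sub, map_mul, map_pow, map_ofNat]
  linear_combination (k b) ^ 2 * hE

/-- the discriminant does not vanish -/
theorem ELLW_disc (hll : ∀ D : Dv F, 1 ≤ dg D → ll D = dg D) {o : Pl F} {x y : F}
    (h : ELLWPair o x y) {A B : ℂ}
    (he : y ^ 2 = x ^ 3 + algebraMap ℂ F A * x + algebraMap ℂ F B) :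
    4 * A ^ 3 + 27 * B ^ 2 ≠ 0 := by
  intro hd
  obtain ⟨al, h1, h2⟩ : ∃ al : ℂ, A = -3 * al ^ 2 ∧ B = 2 * al ^ 3 := by
    by_cases hA : A = 0
    · subst hA
      refine ⟨0, by ring, ?_⟩
      have : B ^ 2 = 0 := by linear_combination hd / 27
      rw [pow_eq_zero_iff (by norm_num)] at this
      rw [this]
      ring
    · refine ⟨-3 * B / (2 * A), ?_, ?_⟩
      · field_simp
        linear_combination hd
      · field_simp
        linear_combination B * hd
  let k : ℂ →+* F := algebraMap ℂ F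
  have he' : y ^ 2 = (x - k al) ^ 2 * (x + 2 * k al) := by
    rw [he, h1, h2]
    show x ^ 3 + k (-3 * al ^ 2) * x + k (2 * al ^ 3) = _
    simp only [map_mul, map_pow, map_ofNat, map_neg]
    ring
  have h3 := ELLI_strict o.2 h.x0 (g := -k al)
    (by rw [h.ox]; exact ELLI_Bd_mono (ELLI_Bd_neg o.2 (ELLI_Bd_const o.2 al)) (by norm_num))
  rw [← sub_eq_add_neg, h.ox] at h3
  obtain ⟨h30, h31⟩ := h3
  let t : F := y / (x - k al)
  have ht0 : t ≠ 0 := div_ne_zero h.y0 h30
  have htx : t * (x - k al) = y := div_mul_cancel₀ _ h30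
  have ht2 : t ^ 2 = x + 2 * k al := by
    have h4 : (x - k al) ^ 2 * t ^ 2 = (x - k al) ^ 2 * (x + 2 * k al) := by
      rw [← he', ← htx]
      ring
    exact mul_left_cancel₀ (pow_ne_zero 2 h30) h4
  have ot : o.1 t = -1 := by
    have h4 := o.2.mul t (x - k al) ht0 h30
    rw [htx, h.oy, h31] at h4
    omega
  have hw : ∀ w : Pl F, w ≠ o → ELLI_Bd w.1 0 t := by
    intro w hwo
    right
    have h4 : ELLI_Bd w.1 0 (x + 2 * k al) := by
      refine ELLI_Bd_add w.2 (h.rx w hwo) ?_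
      have : (2 : F) * k al = algebraMap ℂ F (2 * al) := by
        show 2 * algebraMap ℂ F al = _
        rw [map_mul, map_ofNat]
      rw [this]
      exact ELLI_Bd_const w.2 _
    rw [← ht2] at h4
    rcases h4 with h4 | h4
    · exact absurd h4 (pow_ne_zero 2 ht0)
    · rw [ELLI_pow2 w.2 ht0] at h4
      omega
  have hcard := ELLW_card hll o (n := 1) le_rfl ![1, t] (by
    refine ELLW_li o _ ?_ ?_
    · intro i
      fin_cases i
      · exact one_ne_zero
      · exact ht0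
    · intro i j hij
      fin_cases i <;> fin_cases j
      · exact absurd rfl hij
      · show o.1 1 ≠ o.1 t
        rw [ot, ELLW_one]
        norm_num
      · show o.1 t ≠ o.1 1
        rw [ot, ELLW_one]
        norm_num
      · exact absurd rfl hij) (by
    intro i
    rw [ELLW_mem]
    fin_cases i
    · refine ⟨Or.inr ?_, fun w _ => Or.inr ?_⟩
      · show _ ≤ o.1 1
        rw [ELLW_one]
        norm_num
      · show _ ≤ w.1 1
        rw [ELLW_one]
    · refine ⟨Or.inr ?_, fun w hwo => hw w hwo⟩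
      show _ ≤ o.1 t
      rw [ot]
      norm_num)
  omega

/-- `x` and `y` generate the field -/
theorem ELLW_gen (hDEG : ST_DEG) (hRES : ST_RES) (hF : FF F)
    (hll : ∀ D : Dv F, 1 ≤ dg D → ll D = dg D) {o : Pl F} {x y : F}
    (h : ELLWPair o x y) : FGen ({x, y} : Set F) := by
  unfold FGen
  rw [eq_top_iff]
  let E := IntermediateField.adjoin ℂ ({x, y} : Set F)
  have hx : x ∈ E := IntermediateField.subset_adjoin ℂ _ (by simp)
  have hy : y ∈ E := IntermediateField.subset_adjoin ℂ _ (by simp)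
  have hcE : ∀ c : ℂ, algebraMap ℂ F c ∈ E := fun c => E.algebraMap_mem c
  -- constants
  have hL1 : ∀ f ∈ LL (Finsupp.single o ((1 : ℕ) : ℤ) : Dv F), f ∈ E := by
    intro f hf
    have h1 := ELLW_span hll o (n := 1) le_rfl (fun _ => (1 : F)) (by
      refine ELLW_li o _ (fun _ => one_ne_zero) ?_
      intro i j hij
      exact absurd (Subsingleton.elim i j) hij) (by
      intro i
      rw [ELLW_mem]
      refine ⟨Or.inr ?_, fun w _ => Or.inr ?_⟩
      · rw [ELLW_one]
        norm_num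
      · rw [ELLW_one])
    rw [h1, Set.range_const, Submodule.mem_span_singleton] at hf
    obtain ⟨c, rfl⟩ := hf
    rw [Algebra.smul_def, mul_one]
    exact hcE c
  -- polynomials
  have hLn : ∀ n : ℕ, ∀ f ∈ LL (Finsupp.single o (n : ℤ) : Dv F), f ∈ E := by
    intro n
    induction n with
    | zero =>
      intro f hf
      apply hL1
      rw [ELLW_mem] at hf ⊢
      exact ⟨ELLI_Bd_mono hf.1 (by norm_num), hf.2⟩
    | succ n ih =>
      intro f hf
      rcases Nat.eq_zero_or_pos n with hn | hn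
      · subst hn
        exact hL1 f hf
      by_cases hf0 : f = 0
      · rw [hf0]
        exact E.zero_mem
      obtain ⟨a, b, hab⟩ : ∃ a b : ℕ, n + 1 = 2 * a + 3 * b := by
        rcases Nat.even_or_odd' (n + 1) with ⟨c, hc | hc⟩
        · exact ⟨c, 0, by omega⟩
        · exact ⟨c - 1, 1, by omega⟩
      obtain ⟨m0, mo, mw⟩ := ELLW_mon h a b
      have mE : x ^ a * y ^ b ∈ E := E.mul_mem (pow_mem hx a) (pow_mem hy b)
      rw [ELLW_mem] at hf
      obtain ⟨hf1, hf2⟩ := hf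
      rcases hf1 with hf1 | hf1
      · exact absurd hf1 hf0
      by_cases hof : -(n : ℤ) ≤ o.1 f
      · apply ih
        rw [ELLW_mem]
        exact ⟨Or.inr hof, hf2⟩
      have hof' : o.1 f = -(n + 1 : ℤ) := by
        push_cast at hf1
        omega
      let q : F := f / (x ^ a * y ^ b)
      have hq0 : q ≠ 0 := div_ne_zero hf0 m0
      have hqm : q * (x ^ a * y ^ b) = f := div_mul_cancel₀ _ m0
      have oq : o.1 q = 0 := by
        have h4 := o.2.mul q _ hq0 m0
        rw [hqm, hof', mo] at h4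
        omega
      obtain ⟨c, hc0, hc⟩ := hRES F hF o q hq0 oq
      have hmem : f - algebraMap ℂ F c * (x ^ a * y ^ b) ∈ E := by
        apply ih
        rw [ELLW_mem]
        have hfq : f - algebraMap ℂ F c * (x ^ a * y ^ b) =
            (q - algebraMap ℂ F c) * (x ^ a * y ^ b) := by
          rw [sub_mul, hqm]
        refine ⟨?_, fun w hw => ELLI_Bd_sub w.2 (hf2 w hw) (ELLW_Bd_smul w.2 c (mw w hw))⟩
        rw [hfq]
        by_cases hqc : q - algebraMap ℂ F c = 0
        · exact Or.inl (by rw [hqc, zero_mul])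
        · rcases hc with hc | hc
          · exact absurd (by rw [hc, sub_self]) hqc
          · right
            rw [o.2.mul _ _ hqc m0, mo]
            omega
      have h5 : f = (f - algebraMap ℂ F c * (x ^ a * y ^ b)) +
          algebraMap ℂ F c * (x ^ a * y ^ b) := by ring
      rw [h5]
      exact E.add_mem hmem (E.mul_mem (hcE c) mE)
  -- killing poles
  have hres : ∀ w : Pl F, w ≠ o → ∃ c : ℂ, x - algebraMap ℂ F c ≠ 0 ∧
      0 < w.1 (x - algebraMap ℂ F c) := by
    intro w hw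
    have hxc : ∀ c : ℂ, x - algebraMap ℂ F c ≠ 0 := by
      intro c hc
      have h1 := h.ox
      rw [sub_eq_zero.mp hc, o.2.const] at h1
      omega
    rcases h.rx w hw with h1 | h1
    · exact absurd h1 h.x0
    rcases h1.lt_or_eq with h2 | h2
    · refine ⟨0, hxc 0, ?_⟩
      rw [map_zero, sub_zero]
      exact h2
    · obtain ⟨c, -, hc⟩ := hRES F hF w x h.x0 h2.symm
      rcases hc with hc | hc
      · exact absurd (by rw [hc, sub_self]) (hxc c)
      · exact ⟨c, hxc c, hc⟩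
  have hkill : ∀ s : Finset (Pl F), o ∉ s → ∀ f : F, f ≠ 0 →
      (∀ w : Pl F, w ≠ o → w ∉ s → 0 ≤ w.1 f) → f ∈ E := by
    classical
    intro s
    induction s using Finset.induction_on with
    | empty =>
      intro _ f hf hw
      apply hLn (-(o.1 f)).toNat
      rw [ELLW_mem]
      refine ⟨Or.inr ?_, fun w hwo => Or.inr (hw w hwo (by simp))⟩
      omega
    | insert w₀ s hw₀ ih =>
      intro ho f hf hw
      have hw0o : w₀ ≠ o := fun h => ho (by rw [h]; simp)
      have hos : o ∉ s := fun h => ho (by simp [h])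
      obtain ⟨c, hc0, hc⟩ := hres w₀ hw0o
      let z : F := x - algebraMap ℂ F c
      have hz : ∀ w : Pl F, w ≠ o → 0 ≤ w.1 z := by
        intro w hwo
        have := ELLI_Bd_sub w.2 (h.rx w hwo) (ELLI_Bd_const w.2 c)
        rcases this with h1 | h1
        · exact absurd h1 hc0
        · exact h1
      have hpow : ∀ (w : Pl F) (n : ℕ), w.1 (z ^ n) = n * w.1 z := by
        intro w n
        induction n with
        | zero => rw [pow_zero, ELLW_one]; simp
        | succ n ih =>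
          rw [pow_succ, w.2.mul _ _ (pow_ne_zero n hc0) hc0, ih]
          push_cast
          ring
      have h1 : z ^ (-(w₀.1 f)).toNat * f ∈ E := by
        refine ih hos _ (mul_ne_zero (pow_ne_zero _ hc0) hf) ?_
        intro w hwo hws
        rw [w.2.mul _ _ (pow_ne_zero _ hc0) hf, hpow]
        by_cases hww : w = w₀
        · subst hww
          have h2 : 1 ≤ w.1 z := hc
          have h3 : ((-(w.1 f)).toNat : ℤ) ≤ ((-(w.1 f)).toNat : ℤ) * w.1 z := by
            nlinarith [Int.natCast_nonneg (-(w.1 f)).toNat]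
          omega
        · have h2 := hz w hwo
          have h3 : 0 ≤ ((-(w₀.1 f)).toNat : ℤ) * w.1 z :=
            mul_nonneg (Int.natCast_nonneg _) h2
          have h4 := hw w hwo (by simp [hww, hws])
          omega
      have h2 : z ^ (-(w₀.1 f)).toNat ∈ E := pow_mem (E.sub_mem hx (hcE c)) _
      have h3 : f = (z ^ (-(w₀.1 f)).toNat)⁻¹ * (z ^ (-(w₀.1 f)).toNat * f) := by
        rw [inv_mul_cancel_left₀ (pow_ne_zero _ hc0)]
      rw [h3]
      exact E.mul_mem (E.inv_mem h2) h1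
  classical
  intro f _
  by_cases hf : f = 0
  · rw [hf]
    exact E.zero_mem
  obtain ⟨D, hD, -⟩ := hDEG F hF f hf
  refine hkill (D.support.erase o) (by simp) f hf ?_
  intro w hwo hw
  have : w ∉ D.support := fun h => hw (by simp [hwo, h])
  rw [Finsupp.notMem_support_iff, hD w] at this
  omega

theorem st_ELLW (hDEG : ST_DEG) (hRES : ST_RES) : ST_ELLW := by
  intro F _ _ hF hll
  obtain ⟨o⟩ := CLS_place hDEG hF
  obtain ⟨x, hx0, hox, hrx⟩ := ELLW_next hll o (n := 1) le_rfl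
  obtain ⟨y, hy0, hoy, hry⟩ := ELLW_next hll o (n := 2) (by norm_num)
  have hp : ELLWPair o x y := by
    refine ⟨hx0, hy0, ?_, ?_, hrx, hry⟩
    · rw [hox]
      norm_num
    · rw [hoy]
      norm_num
  obtain ⟨A, B, X, Y, h, he⟩ := ELLW_eqn hll hp
  have hbd : ∀ (w : Pl F) (z : F), z ≠ 0 → ELLI_Bd w.1 0 z → 0 ≤ w.1 z := by
    intro w z hz hb
    rcases hb with hb | hb
    · exact absurd hb hz
    · exact hb
  have m1 : ∀ n : ℕ, (1 : F) ∈ LL (Finsupp.single o (n : ℤ) : Dv F) := by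
    intro n
    rw [ELLW_mem]
    refine ⟨Or.inr ?_, fun w _ => Or.inr ?_⟩
    · rw [ELLW_one]
      omega
    · rw [ELLW_one]
  refine ⟨o, A, B, X, Y, ELLW_disc hll h he, he, h.ox, h.oy,
    fun w hw => ⟨hbd w X h.x0 (h.rx w hw), hbd w Y h.y0 (h.ry w hw)⟩,
    ELLW_gen hDEG hRES hF hll h, ?_, ?_⟩
  · have h1 := ELLW_span hll o (n := 2) (by norm_num) ![1, X] (by
      refine ELLW_li o _ ?_ ?_
      · intro i
        fin_cases i
        · exact one_ne_zero
        · exact h.x0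
      · intro i j hij
        fin_cases i <;> fin_cases j
        · exact absurd rfl hij
        · show o.1 1 ≠ o.1 X
          rw [h.ox, ELLW_one]
          norm_num
        · show o.1 X ≠ o.1 1
          rw [h.ox, ELLW_one]
          norm_num
        · exact absurd rfl hij) (by
      intro i
      fin_cases i
      · exact m1 2
      · show X ∈ _
        rw [ELLW_mem]
        refine ⟨Or.inr ?_, h.rx⟩
        rw [h.ox]
        norm_num)
    have h2 : (2 • (Finsupp.single o 1 : Dv F)) = Finsupp.single o ((2 : ℕ) : ℤ) := by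
      rw [Finsupp.smul_single]
      norm_num
    rw [h2, h1, Matrix.range_cons, Matrix.range_cons, Matrix.range_empty, Set.union_empty,
      Set.singleton_union]
  · have h1 := ELLW_span hll o (n := 3) (by norm_num) ![1, X, Y] (by
      refine ELLW_li o _ ?_ ?_
      · intro i
        fin_cases i
        · exact one_ne_zero
        · exact h.x0
        · exact h.y0
      · have e : ∀ i : Fin 3, o.1 ((![1, X, Y] : Fin 3 → F) i) = (![0, -2, -3] : Fin 3 → ℤ) i := by
          intro i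
          fin_cases i
          · exact ELLW_one o
          · exact h.ox
          · exact h.oy
        intro i j hij
        rw [e, e]
        revert i j
        decide) (by
      intro i
      fin_cases i
      · exact m1 3
      · show X ∈ _
        rw [ELLW_mem]
        refine ⟨Or.inr ?_, h.rx⟩
        rw [h.ox]
        norm_num
      · show Y ∈ _
        rw [ELLW_mem]
        refine ⟨Or.inr ?_, h.ry⟩
        rw [h.oy]
        norm_num)
    have h2 : (3 • (Finsupp.single o 1 : Dv F)) = Finsupp.single o ((3 : ℕ) : ℤ) := by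
      rw [Finsupp.smul_single]
      norm_num
    rw [h2, h1, Matrix.range_cons, Matrix.range_cons, Matrix.range_cons, Matrix.range_empty,
      Set.union_empty, Set.singleton_union, Set.singleton_union]

end

end Pool.Agent.Helper43.FV
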