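import Pool.Agent.Helper43.FV.Fin

/-!
# Equivalence of real structures is an equivalence relation
-/

namespace Pool.Agent.Helper43.FV

open Pool.Agent.Helper43.RS
open scoped ComplexConjugate
open MvPolynomial

section

variable {X : Type} {𝒜 : Atlas X}

theorem isRegMap_id (hX : IsNormalVariety 𝒜) : IsRegMap 𝒜 id :=
  fun i j x hx hx' => hX.trans i j x hx hx'

/-- composition of biregular maps -/
theorem eqv_comp (hGK : ST_GK) (hGM : ST_GM) (hGMAP : ST_GMAP)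
    (hGMAPC : ST_GMAPC) (hX : IsNormalVariety 𝒜) (f g : X ≃ X) (hf : IsRegMap 𝒜 f)
    (hf' : IsRegMap 𝒜 f.symm) (hg : IsRegMap 𝒜 g) (hg' : IsRegMap 𝒜 g.symm) :
    IsRegMap 𝒜 (g.trans f) ∧ IsRegMap 𝒜 (g.trans f).symm := by
  obtain ⟨K, fK, aK, cr, hcr⟩ := hGK X 𝒜 hX
  obtain ⟨a, ha1, ha2⟩ := (hGMAP X 𝒜 hX K cr hcr f).1 hf hf'
  obtain ⟨b, hb1, hb2⟩ := (hGMAP X 𝒜 hX K cr hcr g).1 hg hg'
  have hab : Pres (PtSet cr) (a * b : K ≃ₐ[ℂ] K) := by
    constructor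
    · intro O hO
      obtain ⟨O', hO', h1⟩ := hb1.1 O hO
      obtain ⟨O'', hO'', h2⟩ := ha1.1 O' hO'
      exact ⟨O'', hO'', fun r => (h1 r).trans (h2 (b r))⟩
    · intro O hO
      obtain ⟨O', hO', h1⟩ := ha1.2 O hO
      obtain ⟨O'', hO'', h2⟩ := hb1.2 O' hO'
      exact ⟨O'', hO'', fun r => (h2 r).trans (h1 (b r))⟩
  obtain ⟨k, hk1, hk2, hk3⟩ := (hGMAPC X 𝒜 hX K cr hcr).1 (a * b) hab
  have hkk : k = g.trans f := by
    ext x
    symm
    apply fin_pt hGM hX hcr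
    intro h c hc
    have h1 : Ev cr (a.symm h) (g x) c := by
      rw [ha2, AlgEquiv.apply_symm_apply]
      exact hc
    have h2 : Ev cr (b.symm (a.symm h)) x c := by
      rw [hb2, AlgEquiv.apply_symm_apply]
      exact h1
    have h3 := (hk3 _ _ _).1 h2
    rwa [AlgEquiv.mul_apply, AlgEquiv.apply_symm_apply, AlgEquiv.apply_symm_apply] at h3
  rw [← hkk]
  exact ⟨hk1, hk2⟩

/-- Equivalence of real structures is an equivalence relation. -/
theorem eqv_equiv (hGK : ST_GK) (hGM : ST_GM) (hGMAP : ST_GMAP)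
    (hGMAPC : ST_GMAPC) (hX : IsNormalVariety 𝒜) {m : ℕ} {G : Subgroup (GL (Fin m) ℂ)}
    [MulAction G X] (σ : G ≃* G) :
    Equivalence (fun μ ν : RealStr 𝒜 σ => μ.Equiv ν) := by
  refine ⟨fun μ => ?_, ?_, ?_⟩
  · exact ⟨Equiv.refl X, ⟨isRegMap_id hX, isRegMap_id hX, fun _ _ => rfl⟩, fun _ => rfl⟩
  · rintro μ ν ⟨f, hf, h⟩
    refine ⟨f.symm, ⟨hf.reg_symm, hf.reg, ?_⟩, ?_⟩
    · intro g x
      rw [Equiv.symm_apply_eq, hf.equivar, Equiv.apply_symm_apply]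
    · intro x
      rw [Equiv.symm_symm, h, Equiv.symm_apply_apply, Equiv.symm_apply_apply]
  · rintro μ ν κ ⟨f, hf, h⟩ ⟨g, hg, h'⟩
    obtain ⟨h1, h2⟩ := eqv_comp hGK hGM hGMAP hGMAPC hX g f hg.reg hg.reg_symm hf.reg
      hf.reg_symm
    refine ⟨f.trans g, ⟨h1, h2, ?_⟩, ?_⟩
    · intro s x
      rw [Equiv.trans_apply, Equiv.trans_apply, hf.equivar, hg.equivar]
    · intro x
      rw [h', h]
      rfl

end

end Pool.Agent.Helper43.FV
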