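import Pool.Agent.Helper43.FV.SpecG
import Pool.Agent.Helper43.RS.GeoD

/-!
# Geometric form of the main theorem
-/

namespace Pool.Agent.Helper43.FV

open Pool.Agent.Helper43.RS
open scoped ComplexConjugate
open MvPolynomial

section

variable {X : Type} {𝒜 : Atlas X} {K : Type} [Field K] [Algebra ℂ K]
  {cr : Fin 𝒜.k → MvPolynomial (Fin 𝒜.n) ℂ →ₐ[ℂ] K}

theorem fin_ext (hGEV : ST_GEV) (hX : IsNormalVariety 𝒜) (hcr : IsFunK 𝒜 cr) {h h' : K}
    (H : ∀ x c, Ev cr h x c → Ev cr h' x c) : h = h' := by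
  obtain ⟨-, -, -, -, -, -, -, h8⟩ := hGEV X 𝒜 hX K cr hcr
  apply h8
  let i : Fin 𝒜.k := ⟨0, hX.charts⟩
  obtain ⟨p, q, hq, hpq⟩ := hcr.frac i h
  have h1 : ∃ x ∈ 𝒜.U i, eval (𝒜.φ i x) q ≠ 0 := by
    by_contra hcon
    push Not at hcon
    exact hq ((hcr.zero i q).2 hcon)
  obtain ⟨x, hx, hxq⟩ := h1
  refine ⟨i, x, hx, q, hxq, fun y hy hyq => ?_⟩
  have h2 : Ev cr h y (eval (𝒜.φ i y) p / eval (𝒜.φ i y) q) :=
    ⟨i, p, q, hy, hyq, hpq, div_mul_cancel₀ _ hyq⟩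
  exact ⟨_, h2, H _ _ h2⟩

theorem fin_pt (hGM : ST_GM) (hX : IsNormalVariety 𝒜) (hcr : IsFunK 𝒜 cr) {x y : X}
    (H : ∀ h c, Ev cr h x c → Ev cr h y c) : x = y :=
  (hGM X 𝒜 hX K cr hcr).2 x y fun f ⟨c, hc⟩ => ⟨c, H f c hc⟩

end

/-- Main theorem, from the statements of the modules. -/
theorem fin_main (hcore : ST_CORE2) (hGK : ST_GK) (hGEV : ST_GEV) (hGM : ST_GM)
    (hGMAP : ST_GMAP) (hGMAPC : ST_GMAPC) (hGACT : ST_GACT) (hGCX : ST_GCX)
    {m : ℕ} {G : Subgroup (GL (Fin m) ℂ)} (hG : IsReductiveGroup G) {σ : G ≃* G}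
    (hσ : IsRealGroupStructure σ) {X : Type} (𝒜 : Atlas X) [MulAction G X]
    (hX : IsNormalVariety 𝒜) (hact : IsRegAction 𝒜 G) (hc : IsComplexityOne 𝒜 G) :
    ∃ T : Set (RealStr 𝒜 σ), T.Finite ∧ ∀ μ, ∃ ν ∈ T, ν.Equiv μ := by
  classical
  obtain ⟨hGc, G₀, hle, hG0, hind, hlin⟩ := hG
  obtain ⟨B, hB, -, i₀, x₀, hx₀, hdim⟩ := hc
  have hBle : B ≤ G₀ := le_comp hG0.closed hind hB.le hB.conn.irreducible
  obtain ⟨K, fK, aK, cr, hcr⟩ := hGK X 𝒜 hX
  obtain ⟨ρ, hrat, hpres, hev⟩ := hGACT X 𝒜 hX K cr hcr m G hact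
  have hopf : HopfFun (groupFun G) := hopf_groupFun G
  let K₀ : Subgroup G := G₀.subgroupOf G
  let B₀ : Subgroup K₀ := (B.subgroupOf G).subgroupOf K₀
  let e : K₀ ≃* G₀ := Subgroup.subgroupOfEquivOfLe hle
  have hopfK : HopfFun (resFun (groupFun G) K₀) := hopf_res hopf K₀
  have irrK : IrrFun (resFun (groupFun G) K₀) := irr_transfer e (res_to_sub hle) hG0.irreducible
  have linK : LinRed (resFun (groupFun G) K₀) := lin_transfer e (res_to_sub hle) hlin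
  let eB : B₀ ≃* B :=
    { toFun := fun b => ⟨((b : K₀) : G), b.2⟩
      invFun := fun b => ⟨⟨⟨b, hB.le b.2⟩, hBle b.2⟩, b.2⟩
      left_inv := fun b => rfl
      right_inv := fun b => rfl
      map_mul' := fun a b => rfl }
  have irrB : IrrFun (resFun (resFun (groupFun G) K₀) B₀) := by
    refine irr_transfer eB ?_ hB.conn.irreducible
    intro f hf
    obtain ⟨h1, hh1, hf1⟩ := mem_resFun.1 hf
    obtain ⟨h2, hh2, hf2⟩ := mem_resFun.1 hh1
    obtain ⟨p, hp⟩ := mem_groupFun.1 hh2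
    refine mem_groupFun.2 ⟨p, fun x => ?_⟩
    rw [hf1, hf2, hp]
    rfl
  have solvB : Group.IsSolvable B₀ := by
    have := hB.solv
    exact Group.isSolvable_of_isSolvable_injective (f := eB.toMonoidHom) eB.injective
  have hratK : RatAct (resFun (groupFun G) K₀) (ρ.comp K₀.subtype) := by
    intro f
    obtain ⟨N, D, ⟨nN, hN, kN, hN1, hN2⟩, ⟨nD, hD, kD, hD1, hD2⟩, hD0, hND⟩ := hrat f
    refine ⟨fun g => N g, fun g => D g, ⟨nN, fun i g => hN i g, kN, fun i => ?_, fun g => hN2 g⟩,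
      ⟨nD, fun i g => hD i g, kD, fun i => ?_, fun g => hD2 g⟩, hD0, fun g => hND g⟩
    · exact mem_resFun.2 ⟨hN i, hN1 i, fun _ => rfl⟩
    · exact mem_resFun.2 ⟨hD i, hD1 i, fun _ => rfl⟩
  obtain ⟨hmod, hpt⟩ := hGM X 𝒜 hX K cr hcr
  obtain ⟨T, hT1, hT2⟩ := hcore G K₀ (resFun (groupFun G) K₀) B₀ hopfK irrK linK solvB irrB K
    (PtSet cr) hmod ρ hratK (by
      intro f g hf hg
      refine hGCX X 𝒜 hX K cr hcr m G hact ρ hev B hB.le hB.conn i₀ x₀ hx₀ hdim.ge f g ?_ ?_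
      · intro b hb
        exact hf ⟨b, hBle hb⟩ hb
      · intro b hb
        exact hg ⟨b, hBle hb⟩ hb) σ (by
      intro g
      constructor
      · intro hg
        exact sigma_comp hle hG0.closed hind hG0.irreducible hσ g hg
      · intro hg
        have := sigma_comp hle hG0.closed hind hG0.irreducible hσ (σ g) hg
        rw [hσ.invol] at this
        exact this)
  -- the field automorphism of a real structure
  let eqv : RealStr 𝒜 σ → (X ≃ X) := fun μ => ⟨μ.toFun, μ.toFun, μ.invol, μ.invol⟩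
  have halg : ∀ μ : RealStr 𝒜 σ, ∃ a : K ≃+* K, Pres (PtSet cr) a ∧
      (∀ c, a (algebraMap ℂ K c) = algebraMap ℂ K (conj c)) ∧
      ∀ h x c, Ev cr h x c ↔ Ev cr (a h) (μ.toFun x) (conj c) := fun μ =>
    (hGMAP X 𝒜 hX K cr hcr (eqv μ)).2 μ.antireg μ.antireg
  choose alg alg1 alg2 alg3 using halg
  have hRS : ∀ μ : RealStr 𝒜 σ, IsRSX (PtSet cr) ρ σ (alg μ) := by
    intro μ
    refine ⟨alg2 μ, ?_, ?_, alg1 μ⟩
    · intro r
      symm
      apply fin_ext hGEV hX hcr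
      intro x c hc
      have h1 := (alg3 μ _ _ _).1 ((alg3 μ _ _ _).1 hc)
      rwa [μ.invol, Complex.conj_conj] at h1
    · intro g r
      apply fin_ext hGEV hX hcr
      intro y c hc
      have h1 : Ev cr (ρ g r) (μ.toFun y) (conj c) := by
        rw [alg3 μ, μ.invol, Complex.conj_conj]
        exact hc
      have h2 : Ev cr r (g⁻¹ • μ.toFun y) (conj c) := by
        rw [hev g, smul_inv_smul]
        exact h1
      have h3 := (alg3 μ _ _ _).1 h2
      rw [μ.equivar, μ.invol, Complex.conj_conj] at h3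
      have h4 := (hev (σ g) _ _ _).1 h3
      rwa [map_inv, smul_inv_smul] at h4
  -- from field automorphisms to real structures
  have hback : ∀ ν ∈ T, ∃ κ : RealStr 𝒜 σ,
      ∀ h x c, Ev cr h x c ↔ Ev cr (ν h) (κ.toFun x) (conj c) := by
    intro ν hν
    obtain ⟨h1, h2, h3, h4⟩ := hT1 ν hν
    obtain ⟨f, hf1, -, hf3⟩ := (hGMAPC X 𝒜 hX K cr hcr).2 ν h4 h1
    refine ⟨⟨f, ?_, hf1, ?_⟩, hf3⟩
    · intro x
      symm
      apply fin_pt hGM hX hcr
      intro h c hc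
      have h5 := (hf3 _ _ _).1 ((hf3 _ _ _).1 hc)
      rwa [h2, Complex.conj_conj] at h5
    · intro g x
      symm
      apply fin_pt hGM hX hcr
      intro h c hc
      have h5 : Ev cr (ρ (σ g)⁻¹ h) (f x) c := by
        rw [hev (σ g), map_inv]
        have : ρ (σ g) ((ρ (σ g))⁻¹ h) = h := by
          rw [← AlgEquiv.mul_apply, mul_inv_cancel, AlgEquiv.one_apply]
        rw [this]
        exact hc
      have h6 : Ev cr (ν (ρ (σ g)⁻¹ h)) (f (f x)) (conj c) := (hf3 _ _ _).1 h5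
      have hff : f (f x) = x := by
        symm
        apply fin_pt hGM hX hcr
        intro h c hc
        have h5 := (hf3 _ _ _).1 ((hf3 _ _ _).1 hc)
        rwa [h2, Complex.conj_conj] at h5
      rw [hff, ← map_inv, h3] at h6
      have h7 := (hev g _ _ _).1 h6
      have h8 : ρ g (ρ (σ (σ g⁻¹)) (ν h)) = ν h := by
        rw [hσ.invol, ← AlgEquiv.mul_apply, ← map_mul, mul_inv_cancel, map_one,
          AlgEquiv.one_apply]
      rw [h8] at h7
      have h9 := (hf3 _ _ _).1 h7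
      rwa [h2, Complex.conj_conj] at h9
  have hback' : ∀ ν : T, ∃ κ : RealStr 𝒜 σ,
      ∀ h x c, Ev cr h x c ↔ Ev cr ((ν : K ≃+* K) h) (κ.toFun x) (conj c) :=
    fun ν => hback ν ν.2
  choose bk hbk using hback'
  refine ⟨Set.range bk, Set.finite_range bk, fun μ => ?_⟩
  obtain ⟨ν, hν, a, ha1, ha2, ha3⟩ := hT2 (alg μ) (hRS μ)
  refine ⟨bk ⟨ν, hν⟩, ⟨_, rfl⟩, ?_⟩
  obtain ⟨f, hf1, hf2, hf3⟩ := (hGMAPC X 𝒜 hX K cr hcr).1 a ha1
  refine ⟨f, ⟨hf1, hf2, ?_⟩, ?_⟩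
  · intro g x
    symm
    apply fin_pt hGM hX hcr
    intro h c hc
    have h1 : Ev cr (ρ g⁻¹ h) (f x) c := by
      have h2 := (hev g⁻¹ _ _ _).1 hc
      rwa [inv_smul_smul] at h2
    have h2 : Ev cr (a.symm (ρ g⁻¹ h)) x c := by
      rw [hf3, AlgEquiv.apply_symm_apply]
      exact h1
    have h3 := (hf3 _ _ _).1 ((hev g _ _ _).1 h2)
    have h4 : a (ρ g (a.symm (ρ g⁻¹ h))) = h := by
      have h5 : a (ρ g (a.symm (ρ g⁻¹ h))) = ρ g (a (a.symm (ρ g⁻¹ h))) :=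
        congrArg (fun u : K ≃ₐ[ℂ] K => u (a.symm (ρ g⁻¹ h))) (ha2 g)
      rw [h5, AlgEquiv.apply_symm_apply, ← AlgEquiv.mul_apply, ← map_mul, mul_inv_cancel,
        map_one, AlgEquiv.one_apply]
    rwa [h4] at h3
  · intro x
    apply fin_pt hGM hX hcr
    intro h c hc
    have h1 : Ev cr ((alg μ) h) x (conj c) := by
      rw [alg3 μ _ _ _] at hc
      rwa [μ.invol] at hc
    rw [ha3] at h1
    have h2 : Ev cr (ν (a.symm h)) (f.symm x) (conj c) := by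
      rw [hf3, Equiv.apply_symm_apply]
      exact h1
    have h3 : Ev cr (a.symm h) ((bk ⟨ν, hν⟩).toFun (f.symm x)) c := by
      rw [hbk ⟨ν, hν⟩, (bk ⟨ν, hν⟩).invol]
      exact h2
    have h4 := (hf3 _ _ _).1 h3
    rwa [AlgEquiv.apply_symm_apply] at h4

end Pool.Agent.Helper43.FV
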