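import Pool.Agent.Helper43.FV.Defs

/-!
# Statements of the modules (real structures on arbitrary complexity-one varieties)
-/

namespace Pool.Agent.Helper43.FV

open Pool.Agent.Helper43.RS
open scoped ComplexConjugate TensorProduct
open MvPolynomial

/-! ## Block A: families of automorphisms -/

/-- generic freeness of `T / I` in the form of a splitting property -/
def ST_SUMM : Prop :=
  ∀ (S T : Type) [CommRing S] [IsDomain S] [IsNoetherianRing S] [CommRing T] [Algebra S T]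
    [Algebra.FiniteType S T] (I : Ideal T), ∃ h : S, h ≠ 0 ∧
    ∀ m : Ideal S, m.IsPrime → h ∉ m → ∀ x ∈ I, x ∈ m.map (algebraMap S T) →
      ∃ n : ℕ, algebraMap S T (h ^ n) * x ∈ m.map (algebraMap S T) * I

/-- generic lifting of points -/
def ST_GLIFT : Prop :=
  ∀ (S T : Type) [CommRing S] [IsDomain S] [Algebra ℂ S] [Algebra.FiniteType ℂ S] [CommRing T]
    [Algebra ℂ T] [Algebra.FiniteType ℂ T] (ι : S →ₐ[ℂ] T), Function.Injective ι →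
    ∃ h : S, h ≠ 0 ∧ ∀ z : S →ₐ[ℂ] ℂ, z h ≠ 0 → ∃ ζ : T →ₐ[ℂ] ℂ, ζ.comp ι = z

/-- generic lifting of denominators -/
def ST_SLICE : Prop :=
  ∀ (S R : Type) [CommRing S] [IsDomain S] [Algebra ℂ S] [Algebra.FiniteType ℂ S] [CommRing R]
    [Algebra ℂ R] [Algebra.FiniteType ℂ R] (N D : S ⊗[ℂ] R), ∃ h : S, h ≠ 0 ∧
    ∀ z : S →ₐ[ℂ] ℂ, z h ≠ 0 → ∀ e₀ q₀ : R, e₀ * evT z N = q₀ * evT z D →
      ∃ (e q : S ⊗[ℂ] R) (n : ℕ), e * N = q * D ∧ evT z e = (z h) ^ n • e₀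

/-- regularity is an open condition in families -/
def ST_REGOPEN : Prop :=
  ∀ (K : Type) [Field K] [Algebra ℂ K] (n m : ℕ) (R : Fin n → Subalgebra ℂ K),
    (∀ i, IsChart (R i)) →
    ∀ (S : Type) [CommRing S] [IsDomain S] [Algebra ℂ S] [Algebra.FiniteType ℂ S]
      (Γ : Set (S →ₐ[ℂ] ℂ)), DensePts Γ →
    ∀ (N D : Fin n → Fin m → (S →ₐ[ℂ] ℂ) → K), (∀ i k, Fam (N i k)) → (∀ i k, Fam (D i k)) →
      (∀ γ ∈ Γ, ∀ j, ∀ φ : R j →ₐ[ℂ] ℂ, ∃ i, ∀ k, D i k γ ≠ 0 ∧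
        N i k γ / D i k γ ∈ locAt (R j) φ) →
      ∃ h : S, h ≠ 0 ∧ ∀ z : S →ₐ[ℂ] ℂ, z h ≠ 0 → ∀ j, ∀ φ : R j →ₐ[ℂ] ℂ, ∃ i, ∀ k,
        D i k z ≠ 0 ∧ N i k z / D i k z ∈ locAt (R j) φ

/-- a group of automorphisms of a model extends to its Zariski closure -/
def ST_THK : Prop :=
  ∀ (K : Type) [Field K] [Algebra ℂ K] (X : Set (Subalgebra ℂ K)), IsModel X →
    ∀ (N : ℕ) (W Γ : Subgroup (GL (Fin N) ℂ)), ZClosed (W : Set (GL (Fin N) ℂ)) →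
    ∀ hΓ : Γ ≤ W, (∀ p : MvPolynomial ((Fin N × Fin N) ⊕ (Fin N × Fin N)) ℂ,
      (∀ γ ∈ Γ, eval (entries γ) p = 0) → ∀ w ∈ W, eval (entries w) p = 0) →
    ∀ a : Γ →* (K ≃ₐ[ℂ] K), (∀ γ, Pres X (a γ)) →
    ∀ (r : ℕ) (f : Fin r → K), FGen (Set.range f) →
    ∀ P Q : Fin r → W → K, (∀ j, GFam (groupFun W) (P j)) → (∀ j, GFam (groupFun W) (Q j)) →
      (∀ j w, Q j w ≠ 0) →
      (∀ j (γ : Γ), Q j ⟨γ, hΓ γ.2⟩ * a γ (f j) = P j ⟨γ, hΓ γ.2⟩) →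
      ∃ a' : W →* (K ≃ₐ[ℂ] K), (∀ w, Pres X (a' w)) ∧ (∀ j w, Q j w * a' w (f j) = P j w) ∧
        (∀ γ : Γ, a' ⟨γ, hΓ γ.2⟩ = a γ) ∧
        ∀ b : K ≃ₐ[ℂ] K, (∀ γ, b * a γ = a γ * b) → ∀ w, b * a' w = a' w * b

/-- generic members of a family of automorphisms -/
def ST_GENREG : Prop :=
  ∀ (K : Type) [Field K] [Algebra ℂ K] (X : Set (Subalgebra ℂ K)), IsModel X →
    ∀ (S : Type) [CommRing S] [IsDomain S] [Algebra ℂ S] [Algebra.FiniteType ℂ S]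
      (Γ : Set (S →ₐ[ℂ] ℂ)), DensePts Γ →
    ∀ (r : ℕ) (f : Fin r → K), FGen (Set.range f) →
    ∀ N D N' D' : Fin r → (S →ₐ[ℂ] ℂ) → K, (∀ j, Fam (N j)) → (∀ j, Fam (D j)) →
      (∀ j, Fam (N' j)) → (∀ j, Fam (D' j)) → ∀ C : Set (K ≃ₐ[ℂ] K),
      (∀ γ ∈ Γ, ∃ a : K ≃ₐ[ℂ] K, Pres X a ∧ (∀ b ∈ C, a * b = b * a) ∧
        ∀ j, D j γ ≠ 0 ∧ D j γ * a (f j) = N j γ ∧ D' j γ ≠ 0 ∧
          D' j γ * a.symm (f j) = N' j γ) →
      ∃ h : S, h ≠ 0 ∧ ∀ z : S →ₐ[ℂ] ℂ, z h ≠ 0 →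
        ∃ a : K ≃ₐ[ℂ] K, Pres X a ∧ (∀ b ∈ C, a * b = b * a) ∧
          ∀ j, D j z ≠ 0 ∧ D j z * a (f j) = N j z ∧ D' j z ≠ 0 ∧
            D' j z * a.symm (f j) = N' j z

/-! ## Block B: finiteness of Galois cohomology -/

/-- Borel-Serre finiteness for a twisted real structure -/
def ST_BS2 : Prop :=
  ∀ (n : ℕ) (Γ : Subgroup (GL (Fin n) ℂ)), ZClosed (Γ : Set (GL (Fin n) ℂ)) →
    ∀ C : GL (Fin n) ℂ, (∀ γ ∈ Γ, C⁻¹ * cj (C * γ * C⁻¹) * C ∈ Γ) →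
    ∃ T : Finset (GL (Fin n) ℂ), (∀ b ∈ T, b ∈ Γ) ∧
      ∀ γ ∈ Γ, γ * (C⁻¹ * cj (C * γ * C⁻¹) * C) = 1 →
        ∃ b ∈ T, ∃ x ∈ Γ, γ = x * b * (C⁻¹ * cj (C * x * C⁻¹) * C)⁻¹

/-- finiteness for groups acting projectively on a finite dimensional generating subspace -/
def ST_PROJ : Prop :=
  ∀ (K : Type) [Field K] [Algebra ℂ K] (X : Set (Subalgebra ℂ K))
    (A : Subgroup (K ≃ₐ[ℂ] K)) (S : Set (K ≃+* K)), IsModel X → RSys X A S →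
    ∀ (n : ℕ) (v : Fin n → K), LinearIndependent ℂ v → RatGen v →
    ∀ Z : Subgroup (GL (Fin n) ℂ), ZClosed (Z : Set (GL (Fin n) ℂ)) → ∀ μ ∈ S,
      ∃ T : Finset (K ≃ₐ[ℂ] K), (∀ b ∈ T, b ∈ A) ∧
        ∀ a ∈ A, (∃ M ∈ Z, LinRel v a M) → (∃ M ∈ Z, LinRel v (fun r => μ (a (μ r))) M) →
          (∀ r, a (μ (a (μ r))) = r) →
          ∃ b ∈ T, ∃ x ∈ A, (∃ M ∈ Z, LinRel v x M) ∧
            (∃ M ∈ Z, LinRel v (fun r => μ (x (μ r))) M) ∧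
            ∀ r, a (μ r) = x (b (μ (x.symm r)))

/-- group theory: finiteness by extension -/
def ST_EXT : Prop :=
  ∀ (E : Type) [Group E] (A A' : Subgroup E) (S : Set E), A' ≤ A → A'.relIndex A ≠ 0 →
    (∀ s ∈ S, s * s = 1) → (∀ s ∈ S, ∀ a ∈ A, a * s * (a * s) = 1 → a * s ∈ S) →
    (∀ s ∈ S, ∀ s' ∈ S, s * s'⁻¹ ∈ A) → (∀ s ∈ S, ∀ a ∈ A, s * a * s⁻¹ ∈ A) →
    (∀ s ∈ S, ∃ C N : Subgroup E, N ≤ C ∧ C ≤ A ∧
      (∀ a ∈ A', s * a * s⁻¹ ∈ A' → a ∈ C) ∧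
      (∀ c ∈ C, s * c * s⁻¹ ∈ C) ∧ (∀ a ∈ N, s * a * s⁻¹ ∈ N) ∧
      (∀ c ∈ C, ∀ a ∈ N, c * a * c⁻¹ ∈ N) ∧
      (∀ c ∈ C, ∀ c' ∈ C, c * c' * c⁻¹ * c'⁻¹ ∈ N) ∧
      (∃ T : Finset E, ∀ c ∈ C, ∃ t ∈ T, ∃ d ∈ C, t⁻¹ * c * (d * d) ∈ N) ∧
      (∃ T : Finset E, ∀ c ∈ C, c * c ∈ N → ∃ t ∈ T, t⁻¹ * c ∈ N) ∧
      (∀ s' ∈ S, s' * s⁻¹ ∈ C → ∃ T : Finset E, ∀ a ∈ N, a * s' * (a * s') = 1 →
        ∃ b ∈ T, b ∈ S ∧ ∃ x ∈ N, a * s' = x * b * x⁻¹)) →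
    ∃ T : Finset E, (∀ b ∈ T, b ∈ S) ∧ ∀ s ∈ S, ∃ b ∈ T, ∃ x ∈ A, s = x * b * x⁻¹

/-- combination: a finite index subgroup, modulo lattices, acts projectively -/
def ST_FINU : Prop :=
  ∀ (K : Type) [Field K] [Algebra ℂ K] (X : Set (Subalgebra ℂ K))
    (A : Subgroup (K ≃ₐ[ℂ] K)) (S : Set (K ≃+* K)), IsModel X → RSys X A S →
    ∀ A' : Subgroup (K ≃ₐ[ℂ] K), A' ≤ A → A'.relIndex A ≠ 0 →
    ∀ (N : ℕ) (φ : A' →* Multiplicative (Fin N → ℤ)),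
    ∀ (n : ℕ) (v : Fin n → K), LinearIndependent ℂ v → RatGen v →
    ∀ Z : Subgroup (GL (Fin n) ℂ), ZClosed (Z : Set (GL (Fin n) ℂ)) →
      (∀ a : A', φ a = 1 ↔ ∃ M ∈ Z, LinRel v (a : K ≃ₐ[ℂ] K) M) →
      (∀ a ∈ A, (∃ M ∈ Z, LinRel v a M) → a ∈ A') → FinRS A S

/-! ## Block C: projective linearization -/

/-- the representation and the map to `K` attached to a stable subspace -/
def ST_PLU : Prop :=
  ∀ (G : Type) [Group G] (H : Subalgebra ℂ (G → ℂ)), HopfFun H →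
    ∀ (K : Type) [Field K] [Algebra ℂ K] (ρ : G →* (K ≃ₐ[ℂ] K)) (n : ℕ)
      (β : G →* GL (Fin n) ℂ),
      (∀ i j, (fun g => (β g : Matrix (Fin n) (Fin n) ℂ) i j) ∈ H) →
    ∀ W : Submodule K (Fin n → K), W ≠ ⊥ →
      (∀ g, ∀ w ∈ W, (fun i => ∑ j, (β g : Matrix (Fin n) (Fin n) ℂ) i j • ρ g (w j)) ∈ W) →
      ∃ (V : Type) (_ : AddCommGroup V) (_ : Module ℂ V) (_ : FiniteDimensional ℂ V)
        (π : Representation ℂ G V) (j : V →ₗ[ℂ] K) (c : G → K), IsRat H π ∧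
        (∀ g, c g ≠ 0) ∧ (∀ g m, j (π g m) = c g * ρ g (j m)) ∧ (∃ m, j m ≠ 0) ∧
        ∃ w ∈ W, w ≠ 0 ∧ ∀ i, w i ∈ IntermediateField.adjoin ℂ {x : K | ∃ m m', x = j m / j m'}

/-- every rational action on a finitely generated field is projectively linear -/
def ST_LINE : Prop :=
  ∀ (G : Type) [Group G] (H : Subalgebra ℂ (G → ℂ)), HopfFun H →
    ∀ (K : Type) [Field K] [Algebra ℂ K], (∃ s : Finset K, FGen (s : Set K)) →
    ∀ ρ : G →* (K ≃ₐ[ℂ] K), RatAct H ρ →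
      ∃ (V : Type) (_ : AddCommGroup V) (_ : Module ℂ V) (_ : FiniteDimensional ℂ V)
        (π : Representation ℂ G V) (j : V →ₗ[ℂ] K) (c : G → K), IsRat H π ∧
        (∀ g, c g ≠ 0) ∧ (∀ g m, j (π g m) = c g * ρ g (j m)) ∧ (∃ m, j m ≠ 0) ∧
        FGen {x : K | ∃ m m', x = j m / j m'}

/-- no invariants: projective linearization of the equivariant automorphisms -/
def ST_VI : Prop :=
  ∀ (G : Type) [Group G] (H : Subalgebra ℂ (G → ℂ)), HopfFun H →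
    ∀ (K : Type) [Field K] [Algebra ℂ K], (∃ s : Finset K, FGen (s : Set K)) →
    ∀ ρ : G →* (K ≃ₐ[ℂ] K), RatAct H ρ →
      (∀ f ∈ fixF ρ, ∃ c : ℂ, f = algebraMap ℂ K c) →
      ∃ (n : ℕ) (v : Fin n → K), LinearIndependent ℂ v ∧ RatGen v ∧
        ∀ A : Subgroup (K ≃ₐ[ℂ] K), (∀ a ∈ A, ∀ g, a * ρ g = ρ g * a) →
          ∃ A' : Subgroup (K ≃ₐ[ℂ] K), A' ≤ A ∧ A'.relIndex A ≠ 0 ∧
            ∀ a ∈ A', ∃ M : GL (Fin n) ℂ, LinRel v a M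

/-! ## Block D: the field of invariants -/

/-- the invariants of `B` are invariants of `G` as soon as there is a nonconstant invariant -/
def ST_KB2 : Prop :=
  ∀ (G : Type) [Group G] (H : Subalgebra ℂ (G → ℂ)), HopfFun H → IrrFun H →
    ∀ (K : Type) [Field K] [Algebra ℂ K] (ρ : G →* (K ≃ₐ[ℂ] K)), RatAct H ρ →
    ∀ B : Subgroup G,
      (∀ f g : K, (∀ b ∈ B, ρ b f = f) → (∀ b ∈ B, ρ b g = g) → AlgDep f g) →
      (∃ t ∈ fixF ρ, ∀ c : ℂ, t ≠ algebraMap ℂ K c) →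
      ∀ z : K, (∀ b ∈ B, ρ b z = z) → z ∈ fixF ρ

/-- generators multiplied by invariants by a finite index subgroup of the equivariant
automorphisms -/
def ST_YSET : Prop :=
  ∀ (G : Type) [Group G] (H : Subalgebra ℂ (G → ℂ)), HopfFun H → LinRed H →
    ∀ B : Subgroup G, Group.IsSolvable B → IrrFun (resFun H B) →
    ∀ (K : Type) [Field K] [Algebra ℂ K], (∃ s : Finset K, FGen (s : Set K)) →
    ∀ ρ : G →* (K ≃ₐ[ℂ] K), RatAct H ρ →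
      (∀ z : K, (∀ b ∈ B, ρ b z = z) → z ∈ fixF ρ) →
      ∃ (n : ℕ) (y : Fin n → K), (∀ i, y i ≠ 0) ∧ (∃ i, y i = 1) ∧ FGen (Set.range y) ∧
        ∀ A : Subgroup (K ≃ₐ[ℂ] K), (∀ a ∈ A, ∀ g, a * ρ g = ρ g * a) →
          ∃ A' : Subgroup (K ≃ₐ[ℂ] K), A' ≤ A ∧ A'.relIndex A ≠ 0 ∧
            ∀ a ∈ A', ∀ i, ∃ u ∈ fixF ρ, a (y i) = u * y i

/-- subfields of transcendence degree one are function fields -/
def ST_FGF : Prop :=
  ∀ (K : Type) [Field K] [Algebra ℂ K], (∃ s : Finset K, FGen (s : Set K)) →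
    ∀ F : IntermediateField ℂ K, (∀ f g : F, AlgDep f g) →
      (∃ t : F, ∀ c : ℂ, t ≠ algebraMap ℂ F c) → FF F

/-! ## Block E: curves -/

/-- the number of zeros of a function is the degree of the field extension -/
def ST_ZER : Prop :=
  ∀ (F : Type) [Field F] [Algebra ℂ F], FF F → ∀ x : F, (∀ c : ℂ, x ≠ algebraMap ℂ F c) →
    0 < Module.finrank (IntermediateField.adjoin ℂ {x}) F ∧
    ∃ s : Finset (Pl F), (∀ w : Pl F, w ∈ s ↔ 0 < w.1 x) ∧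
      ∑ w ∈ s, w.1 x = (Module.finrank (IntermediateField.adjoin ℂ {x}) F : ℤ)

/-- degrees of divisors of functions -/
def ST_DEG : Prop :=
  ∀ (F : Type) [Field F] [Algebra ℂ F], FF F → ∀ x : F, x ≠ 0 →
    ∃ D : Dv F, IsDiv x D ∧ dg D = 0 ∧ ((∀ c : ℂ, x ≠ algebraMap ℂ F c) →
      0 < Module.finrank (IntermediateField.adjoin ℂ {x}) F ∧
      (D.sum fun _ n => max 0 (-n)) =
        (Module.finrank (IntermediateField.adjoin ℂ {x}) F : ℤ))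

/-- residue fields -/
def ST_RES : Prop :=
  ∀ (F : Type) [Field F] [Algebra ℂ F], FF F → ∀ w : Pl F, ∀ f : F, f ≠ 0 → w.1 f = 0 →
    ∃ c : ℂ, c ≠ 0 ∧ (f = algebraMap ℂ F c ∨ 0 < w.1 (f - algebraMap ℂ F c))

/-- Riemann's theorem -/
def ST_RIE : Prop :=
  ∀ (F : Type) [Field F] [Algebra ℂ F], FF F → (∀ D : Dv F, Module.Finite ℂ (LL D)) ∧
    ∃ g c : ℤ, (∀ D : Dv F, dg D + 1 - g ≤ ll D) ∧
      ∀ D : Dv F, c ≤ dg D → ll D = dg D + 1 - g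

/-- consequences of Riemann's theorem: divisors of large degree have no base points, and the
multiples of a divisor of positive degree generate the field -/
def ST_RBP : Prop :=
  ∀ (F : Type) [Field F] [Algebra ℂ F], FF F →
    (∃ c : ℤ, ∀ D : Dv F, c ≤ dg D → ∀ w : Pl F, ∃ f ∈ LL D, f ≠ 0 ∧ w.1 f = -D w) ∧
    ∀ D : Dv F, 0 < dg D → ∀ z : F, ∃ n₀ : ℕ, ∀ n : ℕ, n₀ ≤ n →
      ∃ f ∈ LL (n • D), f ≠ 0 ∧ z * f ∈ LL (n • D)

/-- adeles -/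
def adele (F : Type) [Field F] [Algebra ℂ F] : Submodule ℂ (Pl F → F) where
  carrier := {α | {w : Pl F | α w ≠ 0 ∧ w.1 (α w) < 0}.Finite}
  zero_mem' := by
    apply Set.Finite.subset Set.finite_empty
    rintro w ⟨h, -⟩
    exact h rfl
  add_mem' := by
    intro a b ha hb
    apply Set.Finite.subset (ha.union hb)
    rintro w ⟨h1, h2⟩
    by_contra hcon
    simp only [Set.mem_union, Set.mem_ofPred_eq, not_or, not_and, not_lt] at hcon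
    obtain ⟨h3, h4⟩ := hcon
    simp only [Pi.add_apply] at h1 h2
    by_cases h5 : a w = 0
    · rw [h5, zero_add] at h1 h2
      exact absurd (h4 h1) (not_le.mpr h2)
    by_cases h6 : b w = 0
    · rw [h6, add_zero] at h1 h2
      exact absurd (h3 h1) (not_le.mpr h2)
    have h7 := w.2.add _ _ h5 h6 h1
    have h8 := h3 h5
    have h9 := h4 h6
    rcases min_choice (w.1 (a w)) (w.1 (b w)) with h | h <;> rw [h] at h7 <;> omega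
  smul_mem' := by
    intro c a ha
    apply Set.Finite.subset ha
    rintro w ⟨h1, h2⟩
    rw [Pi.smul_apply, Algebra.smul_def] at h1 h2
    have hc : algebraMap ℂ F c ≠ 0 := left_ne_zero_of_mul h1
    have h3 : a w ≠ 0 := right_ne_zero_of_mul h1
    rw [w.2.mul _ _ hc h3, w.2.const, zero_add] at h2
    exact ⟨h3, h2⟩

/-- Weil differentials vanishing on the adeles bounded by `D` -/
def weil {F : Type} [Field F] [Algebra ℂ F] (D : Dv F) :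
    Submodule ℂ (Module.Dual ℂ (adele F)) where
  carrier := {ω | (∀ α : adele F, (∀ w : Pl F, (α : Pl F → F) w ≠ 0 →
      0 ≤ w.1 ((α : Pl F → F) w) + D w) → ω α = 0) ∧
    ∀ (f : F) (h : (fun _ => f) ∈ adele F), ω ⟨fun _ => f, h⟩ = 0}
  zero_mem' := ⟨fun _ _ => rfl, fun _ _ => rfl⟩
  add_mem' := by
    rintro a b ⟨h1, h2⟩ ⟨h3, h4⟩
    refine ⟨fun α hα => ?_, fun f hf => ?_⟩
    · rw [LinearMap.add_apply, h1 α hα, h3 α hα, add_zero]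
    · rw [LinearMap.add_apply, h2 f hf, h4 f hf, add_zero]
  smul_mem' := by
    rintro c a ⟨h1, h2⟩
    refine ⟨fun α hα => ?_, fun f hf => ?_⟩
    · rw [LinearMap.smul_apply, h1 α hα, smul_zero]
    · rw [LinearMap.smul_apply, h2 f hf, smul_zero]

/-- the index of speciality is the dimension of the space of Weil differentials -/
def ST_WEIL : Prop :=
  ∀ (F : Type) [Field F] [Algebra ℂ F], FF F → ∃ g : ℤ, ∀ D : Dv F,
    Module.Finite ℂ (weil D) ∧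
      (Module.finrank ℂ (weil D) : ℤ) = ll D - dg D - 1 + g

/-- Riemann-Roch -/
def ST_RR : Prop :=
  ∀ (F : Type) [Field F] [Algebra ℂ F], FF F →
    ∃ (g : ℤ) (W : Dv F), ∀ D : Dv F, ll D = dg D + 1 - g + ll (W - D)

/-- transport of divisors -/
noncomputable def mapDv {F : Type} [Field F] [Algebra ℂ F] (a : F ≃ₐ[ℂ] F) (D : Dv F) : Dv F :=
  D.mapDomain (actPl a)

/-- an invariant class of positive degree, or genus one -/
def ST_CLS : Prop :=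
  ∀ (F : Type) [Field F] [Algebra ℂ F], FF F →
    (∃ D : Dv F, 0 < dg D ∧ ∀ a : F ≃ₐ[ℂ] F, LinEq (mapDv a D) D) ∨
      ∀ D : Dv F, 1 ≤ dg D → ll D = dg D

/-- the Weierstrass curve `y ^ 2 = x ^ 3 + A x + B` -/
def WC (A B : ℂ) : WeierstrassCurve.Affine ℂ := ⟨0, 0, 0, A, B⟩

/-- Weierstrass coordinates of a function field of genus one -/
structure WData (F : Type) [Field F] [Algebra ℂ F] (o : Pl F) (A B : ℂ) (x y : F) : Prop where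
  disc : 4 * A ^ 3 + 27 * B ^ 2 ≠ 0
  eqn : y ^ 2 = x ^ 3 + algebraMap ℂ F A * x + algebraMap ℂ F B
  ox : o.1 x = -2
  oy : o.1 y = -3
  reg : ∀ w : Pl F, w ≠ o → 0 ≤ w.1 x ∧ 0 ≤ w.1 y
  gen : FGen ({x, y} : Set F)
  l2 : LL (2 • (Finsupp.single o 1 : Dv F)) = Submodule.span ℂ {1, x}
  l3 : LL (3 • (Finsupp.single o 1 : Dv F)) = Submodule.span ℂ {1, x, y}

def ST_ELLW : Prop :=
  ∀ (F : Type) [Field F] [Algebra ℂ F], FF F → (∀ D : Dv F, 1 ≤ dg D → ll D = dg D) →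
    ∃ (o : Pl F) (A B : ℂ) (x y : F), WData F o A B x y

/-- `T` is the homomorphism of translations -/
def IsTrans {F : Type} [Field F] [Algebra ℂ F] (A B : ℂ) (x y : F) [AddCommGroup (WC A B).Point]
    (T : Multiplicative (WC A B).Point →* (F ≃ₐ[ℂ] F)) : Prop :=
  ∀ (a b : ℂ) (h : (WC A B).Nonsingular a b),
    (x - algebraMap ℂ F a) ^ 2 * T (Multiplicative.ofAdd (.some a b h)) x =
      (y - algebraMap ℂ F b) ^ 2 -
        (x + algebraMap ℂ F a) * (x - algebraMap ℂ F a) ^ 2 ∧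
    (x - algebraMap ℂ F a) * (T (Multiplicative.ofAdd (.some a b h)) y + y) =
      -(y - algebraMap ℂ F b) * (T (Multiplicative.ofAdd (.some a b h)) x - x)

open Classical in
def ST_ELLT : Prop :=
  ∀ (F : Type) [Field F] [Algebra ℂ F] (o : Pl F) (A B : ℂ) (x y : F), FF F →
    WData F o A B x y → ∃ T : Multiplicative (WC A B).Point →* (F ≃ₐ[ℂ] F),
      Function.Injective T ∧ IsTrans A B x y T

open Classical in
def ST_ELLI : Prop :=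
  ∀ (F : Type) [Field F] [Algebra ℂ F] (o : Pl F) (A B : ℂ) (x y : F), FF F →
    WData F o A B x y → ∀ T : Multiplicative (WC A B).Point →* (F ≃ₐ[ℂ] F),
      Function.Injective T → IsTrans A B x y T → T.range.index ≠ 0

open Classical in
def ST_ELLD : Prop :=
  ∀ A B : ℂ, 4 * A ^ 3 + 27 * B ^ 2 ≠ 0 →
    (∀ e : (WC A B).Point, ∃ e', e' + e' = e) ∧ {e : (WC A B).Point | e + e = 0}.Finite

open Classical in
def ST_ELLF : Prop :=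
  ∀ (F : Type) [Field F] [Algebra ℂ F] (o : Pl F) (A B : ℂ) (x y : F), FF F →
    WData F o A B x y → ∀ T : Multiplicative (WC A B).Point →* (F ≃ₐ[ℂ] F),
      IsTrans A B x y T →
      ∃ (S : Type) (_ : CommRing S) (_ : IsDomain S) (_ : Algebra ℂ S)
        (_ : Algebra.FiniteType ℂ S) (θ : (S →ₐ[ℂ] ℂ) → (WC A B).Point),
        (∀ P : Ideal S, P.IsPrime → P ≠ ⊥ → P.IsMaximal) ∧ (Set.range θ)ᶜ.Finite ∧
        ∀ f : F, ∃ N D N' D' : (S →ₐ[ℂ] ℂ) → F, Fam N ∧ Fam D ∧ Fam N' ∧ Fam D' ∧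
          ∀ z, D z ≠ 0 ∧ D z * T (Multiplicative.ofAdd (θ z)) f = N z ∧
            D' z ≠ 0 ∧ D' z * T (Multiplicative.ofAdd (-θ z)) f = N' z

/-- translations of an elliptic function field, with the points of `S` as parameters -/
structure EllOut (F : Type) [Field F] [Algebra ℂ F] (E : Type) [AddCommGroup E]
    (T : Multiplicative E →* (F ≃ₐ[ℂ] F)) (S : Type) [CommRing S] [Algebra ℂ S]
    (θ : (S →ₐ[ℂ] ℂ) → E) : Prop where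
  inj : Function.Injective T
  fin : T.range.index ≠ 0
  div : ∀ e : E, ∃ e', e' + e' = e
  two : {e : E | e + e = 0}.Finite
  dom : IsDomain S
  ft : Algebra.FiniteType ℂ S
  dim : ∀ P : Ideal S, P.IsPrime → P ≠ ⊥ → P.IsMaximal
  cof : (Set.range θ)ᶜ.Finite
  fam : ∀ f : F, ∃ N D N' D' : (S →ₐ[ℂ] ℂ) → F, Fam N ∧ Fam D ∧ Fam N' ∧ Fam D' ∧
    ∀ z, D z ≠ 0 ∧ D z * T (Multiplicative.ofAdd (θ z)) f = N z ∧
      D' z ≠ 0 ∧ D' z * T (Multiplicative.ofAdd (-θ z)) f = N' z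

def ST_ELL : Prop :=
  ∀ (F : Type) [Field F] [Algebra ℂ F], FF F → (∀ D : Dv F, 1 ≤ dg D → ll D = dg D) →
    ∃ (E : Type) (_ : AddCommGroup E) (T : Multiplicative E →* (F ≃ₐ[ℂ] F)) (S : Type)
      (_ : CommRing S) (_ : Algebra ℂ S) (θ : (S →ₐ[ℂ] ℂ) → E), EllOut F E T S θ

/-! ## Block F: divisors of the model and the two cases -/

/-- discrete valuation of a height one prime of a chart -/
def ST_HT1 : Prop :=
  ∀ (K : Type) [Field K] [Algebra ℂ K] (R : Subalgebra ℂ K), IsChart R →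
    ∀ P : Ideal R, P.IsPrime → P ≠ ⊥ → (∀ P' : Ideal R, P'.IsPrime → P' ≤ P → P' = ⊥ ∨ P' = P) →
      ∃ v : K → ℤ, IsPlace v ∧ (∀ r : R, 0 ≤ v r) ∧ (∀ r : R, r ≠ 0 → (0 < v r ↔ r ∈ P)) ∧
        ∀ f : K, 0 ≤ v f → ∃ p q : R, q ≠ 0 ∧ v q = 0 ∧ f * q = p

/-- finite support -/
def ST_D1 : Prop :=
  ∀ (K : Type) [Field K] [Algebra ℂ K] (X : Set (Subalgebra ℂ K)), IsModel X →
    ∀ f : K, f ≠ 0 → {v | v ∈ DivX X ∧ v f ≠ 0}.Finite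

/-- almost all places of a one dimensional subfield are hit -/
def ST_D3 : Prop :=
  ∀ (K : Type) [Field K] [Algebra ℂ K] (X : Set (Subalgebra ℂ K)), IsModel X →
    ∀ F : IntermediateField ℂ K, FF F → (Hit X F)ᶜ.Finite

/-- the divisor on the curve attached to an element of `K` -/
def ST_DELTA : Prop :=
  ∀ (K : Type) [Field K] [Algebra ℂ K] (X : Set (Subalgebra ℂ K)), IsModel X →
    ∀ F : IntermediateField ℂ K, FF F → ∃ δ : K → Dv F, δ 1 = 0 ∧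
      (∀ y, y ≠ 0 → ∀ w, w ∉ Hit X F → δ y w = 0) ∧
      (∀ y, y ≠ 0 → ∀ u : F, u ≠ 0 → ∀ w ∈ Hit X F, δ (u * y) w = δ y w + w.1 u) ∧
      ∀ a : K ≃ₐ[ℂ] K, Pres X a → ∀ b : F ≃ₐ[ℂ] F, ResTo F a b → ∀ y, y ≠ 0 → ∀ w,
        δ (a y) (actPl b w) = δ y w

/-- common data of the two cases with nonconstant invariants -/
structure CaseData {K : Type} [Field K] [Algebra ℂ K] (X : Set (Subalgebra ℂ K))
    (A : Subgroup (K ≃ₐ[ℂ] K)) (S : Set (K ≃+* K)) (F : IntermediateField ℂ K) (n : ℕ)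
    (y : Fin n → K) : Prop where
  model : IsModel X
  sys : RSys X A S
  ff : FF F
  stab : ∀ a ∈ A, ∀ f ∈ F, a f ∈ F
  stabS : ∀ μ ∈ S, ∀ f ∈ F, μ f ∈ F
  ne : ∀ i, y i ≠ 0
  one : ∃ i, y i = 1
  gen : FGen (Set.range y)
  fin : ∃ A' : Subgroup (K ≃ₐ[ℂ] K), A' ≤ A ∧ A'.relIndex A ≠ 0 ∧
    ∀ a ∈ A', ∀ i, ∃ u ∈ F, a (y i) = u * y i

/-- first case -/
def ST_U : Prop :=
  ∀ (K : Type) [Field K] [Algebra ℂ K] (X : Set (Subalgebra ℂ K))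
    (A : Subgroup (K ≃ₐ[ℂ] K)) (S : Set (K ≃+* K)) (F : IntermediateField ℂ K) (n : ℕ)
    (y : Fin n → K), CaseData X A S F n y →
    ((Hit X F)ᶜ.Nonempty ∨ ∃ D : Dv F, 0 < dg D ∧ ∀ a : F ≃ₐ[ℂ] F, LinEq (mapDv a D) D) →
    FinRS A S

/-- second case: the group of liftable translations is finite or everything -/
def ST_ELLQ : Prop :=
  ∀ (K : Type) [Field K] [Algebra ℂ K] (X : Set (Subalgebra ℂ K)) (C : Set (K ≃ₐ[ℂ] K))
    (F : IntermediateField ℂ K) (n : ℕ) (y : Fin n → K), IsModel X → FF F →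
    (∀ a : K ≃ₐ[ℂ] K, Pres X a → (∀ b ∈ C, a * b = b * a) → ∀ f ∈ F, a f ∈ F) →
    (∀ i, y i ≠ 0) → FGen (Set.range y) → Hit X F = Set.univ →
    ∀ (E : Type) [AddCommGroup E] (T : Multiplicative E →* (F ≃ₐ[ℂ] F)) (S : Type)
      [CommRing S] [Algebra ℂ S] (θ : (S →ₐ[ℂ] ℂ) → E), EllOut F E T S θ →
      ∀ Q : Set E, Q = {e | ∃ a : K ≃ₐ[ℂ] K, Pres X a ∧ (∀ b ∈ C, a * b = b * a) ∧
        (∀ i, ∃ u ∈ F, a (y i) = u * y i) ∧
        ResTo F a (T (Multiplicative.ofAdd e))} → Q.Infinite → Q = Set.univ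

/-- second case -/
def ST_E : Prop :=
  ∀ (K : Type) [Field K] [Algebra ℂ K] (X : Set (Subalgebra ℂ K))
    (A : Subgroup (K ≃ₐ[ℂ] K)) (S : Set (K ≃+* K)) (F : IntermediateField ℂ K) (n : ℕ)
    (y : Fin n → K), CaseData X A S F n y → Hit X F = Set.univ →
    (∀ D : Dv F, 1 ≤ dg D → ll D = dg D) → FinRS A S

/-! ## The main theorem for models -/

/-- equivariant real structures on a model -/
def IsRSX {G K : Type} [Group G] [Field K] [Algebra ℂ K] (X : Set (Subalgebra ℂ K))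
    (ρ : G →* (K ≃ₐ[ℂ] K)) (σ : G ≃* G) (μ : K ≃+* K) : Prop :=
  (∀ c : ℂ, μ (algebraMap ℂ K c) = algebraMap ℂ K (conj c)) ∧ (∀ r, μ (μ r) = r) ∧
    (∀ g r, μ (ρ g r) = ρ (σ g) (μ r)) ∧ Pres X μ

def ST_CORE2 : Prop :=
  ∀ (G : Type) [Group G] (G₀ : Subgroup G) (H : Subalgebra ℂ (G₀ → ℂ)) (B : Subgroup G₀),
    HopfFun H → IrrFun H → LinRed H → Group.IsSolvable B → IrrFun (resFun H B) →
    ∀ (K : Type) [Field K] [Algebra ℂ K] (X : Set (Subalgebra ℂ K)), IsModel X →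
    ∀ ρ : G →* (K ≃ₐ[ℂ] K), RatAct H (ρ.comp G₀.subtype) →
      (∀ f g : K, (∀ b ∈ B, ρ b f = f) → (∀ b ∈ B, ρ b g = g) → AlgDep f g) →
      ∀ σ : G ≃* G, (∀ g, g ∈ G₀ ↔ σ g ∈ G₀) →
      ∃ T : Finset (K ≃+* K), (∀ μ ∈ T, IsRSX X ρ σ μ) ∧
        ∀ μ, IsRSX X ρ σ μ → ∃ ν ∈ T, ∃ a : K ≃ₐ[ℂ] K, Pres X a ∧
          (∀ g, a * ρ g = ρ g * a) ∧ ∀ r, μ r = a (ν (a.symm r))

end Pool.Agent.Helper43.FV
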