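import Pool.Agent.Helper43.RS.Geo

/-!
# Algebraic varieties through finite affine atlases: geometric definitions
-/

namespace Pool.Agent.Helper43.FV

open Pool.Agent.Helper43.RS
open scoped ComplexConjugate
open MvPolynomial

/-- A finite atlas of a set `X`: subsets `U i` and coordinate maps `φ i` to affine space. -/
structure Atlas (X : Type) where
  k : ℕ
  n : ℕ
  U : Fin k → Set X
  φ : Fin k → X → (Fin n → ℂ)

variable {X : Type}

/-- Regularity at the point `x` of the chart `i` of a map `f`, defined on `X` and with values in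
the chart `j`: near `x` the point `f y` lies in `U j` and its coordinates are quotients of
polynomials in the coordinates of `y`. -/
def RegAt (𝒜 : Atlas X) (f : X → X) (i j : Fin 𝒜.k) (x : X) : Prop :=
  ∃ (q : MvPolynomial (Fin 𝒜.n) ℂ) (p : Fin 𝒜.n → MvPolynomial (Fin 𝒜.n) ℂ),
    eval (𝒜.φ i x) q ≠ 0 ∧ ∀ y ∈ 𝒜.U i, eval (𝒜.φ i y) q ≠ 0 →
      f y ∈ 𝒜.U j ∧ ∀ l, 𝒜.φ j (f y) l * eval (𝒜.φ i y) q = eval (𝒜.φ i y) (p l)

/-- The same for antiregular maps: the complex conjugates of the coordinates of `f y` are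
quotients of polynomials in the coordinates of `y`. -/
def AntiregAt (𝒜 : Atlas X) (f : X → X) (i j : Fin 𝒜.k) (x : X) : Prop :=
  ∃ (q : MvPolynomial (Fin 𝒜.n) ℂ) (p : Fin 𝒜.n → MvPolynomial (Fin 𝒜.n) ℂ),
    eval (𝒜.φ i x) q ≠ 0 ∧ ∀ y ∈ 𝒜.U i, eval (𝒜.φ i y) q ≠ 0 →
      f y ∈ 𝒜.U j ∧ ∀ l, conj (𝒜.φ j (f y) l) * eval (𝒜.φ i y) q = eval (𝒜.φ i y) (p l)

/-- Normal irreducible complex algebraic varieties: the charts `U i` cover `X`, are nonempty,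
identified by `φ i` with closed subsets of affine space with integrally closed coordinate
domains, the changes of charts are regular, any two charts meet (irreducibility), and the
diagonal is closed (separatedness). -/
structure IsNormalVariety (𝒜 : Atlas X) : Prop where
  cover : ∀ x, ∃ i, x ∈ 𝒜.U i
  charts : 0 < 𝒜.k
  nonempty : ∀ i, (𝒜.U i).Nonempty
  inj : ∀ i, Set.InjOn (𝒜.φ i) (𝒜.U i)
  closed : ∀ i, ∃ I : Set (MvPolynomial (Fin 𝒜.n) ℂ),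
    𝒜.φ i '' 𝒜.U i = {z | ∀ p ∈ I, eval z p = 0}
  trans : ∀ i j x, x ∈ 𝒜.U i → x ∈ 𝒜.U j → RegAt 𝒜 id i j x
  sep : ∀ i j, ∃ I : Set (MvPolynomial (Fin 𝒜.n ⊕ Fin 𝒜.n) ℂ), ∀ x ∈ 𝒜.U i, ∀ y ∈ 𝒜.U j,
    (x = y ↔ ∀ p ∈ I, eval (Sum.elim (𝒜.φ i x) (𝒜.φ j y)) p = 0)
  irreducible : ∀ i j, (𝒜.U i ∩ 𝒜.U j).Nonempty
  domain : ∀ i, IsDomain (polyFun (𝒜.φ i '' 𝒜.U i))
  normal : ∀ i, IsIntegrallyClosed (polyFun (𝒜.φ i '' 𝒜.U i))

/-- Regular maps from `X` to itself. -/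
def IsRegMap (𝒜 : Atlas X) (f : X → X) : Prop :=
  ∀ i j x, x ∈ 𝒜.U i → f x ∈ 𝒜.U j → RegAt 𝒜 f i j x

/-- Antiregular maps from `X` to itself. -/
def IsAntiregMap (𝒜 : Atlas X) (f : X → X) : Prop :=
  ∀ i j x, x ∈ 𝒜.U i → f x ∈ 𝒜.U j → AntiregAt 𝒜 f i j x

/-- Regular actions of a linear algebraic group `G` on `X`: near each `(g, x)` the coordinates
of `g' y` are quotients of polynomials in the entries of `g'` and of its inverse and the
coordinates of `y`. -/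
def IsRegAction (𝒜 : Atlas X) {m : ℕ} (G : Subgroup (GL (Fin m) ℂ)) [MulAction G X] : Prop :=
  ∀ i j, ∀ (g : G) (x : X), x ∈ 𝒜.U i → g • x ∈ 𝒜.U j →
    ∃ (q : MvPolynomial (((Fin m × Fin m) ⊕ (Fin m × Fin m)) ⊕ Fin 𝒜.n) ℂ)
      (p : Fin 𝒜.n → MvPolynomial (((Fin m × Fin m) ⊕ (Fin m × Fin m)) ⊕ Fin 𝒜.n) ℂ),
      eval (Sum.elim (entries (g : GL (Fin m) ℂ)) (𝒜.φ i x)) q ≠ 0 ∧
      ∀ (g' : G), ∀ y ∈ 𝒜.U i,
        eval (Sum.elim (entries (g' : GL (Fin m) ℂ)) (𝒜.φ i y)) q ≠ 0 →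
        g' • y ∈ 𝒜.U j ∧ ∀ l, 𝒜.φ j (g' • y) l *
          eval (Sum.elim (entries (g' : GL (Fin m) ℂ)) (𝒜.φ i y)) q =
            eval (Sum.elim (entries (g' : GL (Fin m) ℂ)) (𝒜.φ i y)) (p l)

/-- The dimension of the closure of the part of a subset `Z` in the chart `i`: the Krull
dimension of the algebra of restrictions of polynomials. -/
noncomputable def dimIn (𝒜 : Atlas X) (i : Fin 𝒜.k) (Z : Set X) : WithBot ℕ∞ :=
  ringKrullDim (polyFun (𝒜.φ i '' (Z ∩ 𝒜.U i)))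

/-- The orbit of `x` under the subgroup `B` of `G`. -/
def orb {m : ℕ} {G : Subgroup (GL (Fin m) ℂ)} (B : Subgroup (GL (Fin m) ℂ)) [MulAction G X]
    (x : X) : Set X :=
  {y | ∃ b : G, (b : GL (Fin m) ℂ) ∈ B ∧ y = b • x}

/-- Complexity one: the minimal codimension of an orbit of a Borel subgroup is one. -/
def IsComplexityOne (𝒜 : Atlas X) {m : ℕ} (G : Subgroup (GL (Fin m) ℂ)) [MulAction G X] :
    Prop :=
  ∃ B : Subgroup (GL (Fin m) ℂ), IsBorel G B ∧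
    (∀ i, ∀ x ∈ 𝒜.U i, dimIn 𝒜 i (orb (G := G) B x) + 1 ≤ dimIn 𝒜 i Set.univ) ∧
    ∃ i, ∃ x ∈ 𝒜.U i, dimIn 𝒜 i (orb (G := G) B x) + 1 = dimIn 𝒜 i Set.univ

/-- `(G, σ)`-equivariant real structures on `X`. -/
structure RealStr (𝒜 : Atlas X) {m : ℕ} {G : Subgroup (GL (Fin m) ℂ)} [MulAction G X]
    (σ : G ≃* G) where
  toFun : X → X
  invol : ∀ x, toFun (toFun x) = x
  antireg : IsAntiregMap 𝒜 toFun
  equivar : ∀ (g : G) (x : X), toFun (g • x) = σ g • toFun x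

/-- Equivariant automorphisms of `X`. -/
structure IsEqAutV (𝒜 : Atlas X) {m : ℕ} (G : Subgroup (GL (Fin m) ℂ)) [MulAction G X]
    (f : X ≃ X) : Prop where
  reg : IsRegMap 𝒜 f
  reg_symm : IsRegMap 𝒜 f.symm
  equivar : ∀ (g : G) (x : X), f (g • x) = g • f x

/-- Equivalence of equivariant real structures: conjugation by an equivariant automorphism. -/
def RealStr.Equiv {𝒜 : Atlas X} {m : ℕ} {G : Subgroup (GL (Fin m) ℂ)} [MulAction G X]
    {σ : G ≃* G} (μ μ' : RealStr 𝒜 σ) : Prop :=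
  ∃ f : X ≃ X, IsEqAutV 𝒜 G f ∧ ∀ x, μ'.toFun x = f (μ.toFun (f.symm x))

end Pool.Agent.Helper43.FV
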