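import Pool.Agent.Helper43.FV.Spec
import Pool.Agent.Helper43.FV.Var

/-!
# Statements of the geometric modules
-/

namespace Pool.Agent.Helper43.FV

open Pool.Agent.Helper43.RS
open scoped ComplexConjugate TensorProduct
open MvPolynomial

variable {X : Type}

/-- `K` is the field of rational functions of `X`: `cr i` sends a polynomial to the rational
function it defines through the coordinates of the chart `i`. -/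
structure IsFunK (𝒜 : Atlas X) {K : Type} [Field K] [Algebra ℂ K]
    (cr : Fin 𝒜.k → MvPolynomial (Fin 𝒜.n) ℂ →ₐ[ℂ] K) : Prop where
  zero : ∀ i p, cr i p = 0 ↔ ∀ x ∈ 𝒜.U i, eval (𝒜.φ i x) p = 0
  glue : ∀ i j p q p' q', cr i p * cr j q' = cr j p' * cr i q ↔
    ∀ x ∈ 𝒜.U i ∩ 𝒜.U j, eval (𝒜.φ i x) p * eval (𝒜.φ j x) q' =
      eval (𝒜.φ j x) p' * eval (𝒜.φ i x) q
  frac : ∀ i f, ∃ p q, cr i q ≠ 0 ∧ f * cr i q = cr i p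

/-- the rational function `f` is regular at `x` with value `c` -/
def Ev {𝒜 : Atlas X} {K : Type} [Field K] [Algebra ℂ K]
    (cr : Fin 𝒜.k → MvPolynomial (Fin 𝒜.n) ℂ →ₐ[ℂ] K) (f : K) (x : X) (c : ℂ) : Prop :=
  ∃ i p q, x ∈ 𝒜.U i ∧ eval (𝒜.φ i x) q ≠ 0 ∧ f * cr i q = cr i p ∧
    c * eval (𝒜.φ i x) q = eval (𝒜.φ i x) p

/-- the set of local rings of the points of `X` -/
def PtSet {𝒜 : Atlas X} {K : Type} [Field K] [Algebra ℂ K]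
    (cr : Fin 𝒜.k → MvPolynomial (Fin 𝒜.n) ℂ →ₐ[ℂ] K) : Set (Subalgebra ℂ K) :=
  {O | ∃ x : X, ∀ f, f ∈ O ↔ ∃ c, Ev cr f x c}

/-- existence of the field of rational functions -/
def ST_GK : Prop :=
  ∀ (X : Type) (𝒜 : Atlas X), IsNormalVariety 𝒜 →
    ∃ (K : Type) (_ : Field K) (_ : Algebra ℂ K)
      (cr : Fin 𝒜.k → MvPolynomial (Fin 𝒜.n) ℂ →ₐ[ℂ] K), IsFunK 𝒜 cr

/-- values of rational functions -/
def ST_GEV : Prop :=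
  ∀ (X : Type) (𝒜 : Atlas X), IsNormalVariety 𝒜 →
    ∀ (K : Type) [Field K] [Algebra ℂ K]
      (cr : Fin 𝒜.k → MvPolynomial (Fin 𝒜.n) ℂ →ₐ[ℂ] K), IsFunK 𝒜 cr →
      (∀ f x c c', Ev cr f x c → Ev cr f x c' → c = c') ∧
      (∀ f x c g d, Ev cr f x c → Ev cr g x d → Ev cr (f + g) x (c + d)) ∧
      (∀ f x c g d, Ev cr f x c → Ev cr g x d → Ev cr (f * g) x (c * d)) ∧
      (∀ f x c, Ev cr f x c → c ≠ 0 → Ev cr f⁻¹ x c⁻¹) ∧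
      (∀ x c, Ev cr (algebraMap ℂ K c) x c) ∧
      (∀ i p x, x ∈ 𝒜.U i → Ev cr (cr i p) x (eval (𝒜.φ i x) p)) ∧
      (∀ f x c i, Ev cr f x c → x ∈ 𝒜.U i → ∃ p q, eval (𝒜.φ i x) q ≠ 0 ∧
        f * cr i q = cr i p ∧ c * eval (𝒜.φ i x) q = eval (𝒜.φ i x) p) ∧
      (∀ f g, (∃ i, ∃ x ∈ 𝒜.U i, ∃ q, eval (𝒜.φ i x) q ≠ 0 ∧ ∀ y ∈ 𝒜.U i,
        eval (𝒜.φ i y) q ≠ 0 → ∃ c, Ev cr f y c ∧ Ev cr g y c) → f = g)

/-- the local rings form a model, and distinct points have incomparable local rings -/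
def ST_GM : Prop :=
  ∀ (X : Type) (𝒜 : Atlas X), IsNormalVariety 𝒜 →
    ∀ (K : Type) [Field K] [Algebra ℂ K]
      (cr : Fin 𝒜.k → MvPolynomial (Fin 𝒜.n) ℂ →ₐ[ℂ] K), IsFunK 𝒜 cr →
      IsModel (PtSet cr) ∧
      ∀ x y, (∀ f, (∃ c, Ev cr f x c) → ∃ c, Ev cr f y c) → x = y

/-- from maps to field automorphisms -/
def ST_GMAP : Prop :=
  ∀ (X : Type) (𝒜 : Atlas X), IsNormalVariety 𝒜 →
    ∀ (K : Type) [Field K] [Algebra ℂ K]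
      (cr : Fin 𝒜.k → MvPolynomial (Fin 𝒜.n) ℂ →ₐ[ℂ] K), IsFunK 𝒜 cr → ∀ f : X ≃ X,
      (IsRegMap 𝒜 f → IsRegMap 𝒜 f.symm → ∃ a : K ≃ₐ[ℂ] K, Pres (PtSet cr) a ∧
        ∀ h x c, Ev cr h x c ↔ Ev cr (a h) (f x) c) ∧
      (IsAntiregMap 𝒜 f → IsAntiregMap 𝒜 f.symm → ∃ a : K ≃+* K, Pres (PtSet cr) a ∧
        (∀ c, a (algebraMap ℂ K c) = algebraMap ℂ K (conj c)) ∧
        ∀ h x c, Ev cr h x c ↔ Ev cr (a h) (f x) (conj c))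

/-- from field automorphisms to maps -/
def ST_GMAPC : Prop :=
  ∀ (X : Type) (𝒜 : Atlas X), IsNormalVariety 𝒜 →
    ∀ (K : Type) [Field K] [Algebra ℂ K]
      (cr : Fin 𝒜.k → MvPolynomial (Fin 𝒜.n) ℂ →ₐ[ℂ] K), IsFunK 𝒜 cr →
      (∀ a : K ≃ₐ[ℂ] K, Pres (PtSet cr) a → ∃ f : X ≃ X, IsRegMap 𝒜 f ∧ IsRegMap 𝒜 f.symm ∧
        ∀ h x c, Ev cr h x c ↔ Ev cr (a h) (f x) c) ∧
      (∀ a : K ≃+* K, Pres (PtSet cr) a →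
        (∀ c, a (algebraMap ℂ K c) = algebraMap ℂ K (conj c)) →
        ∃ f : X ≃ X, IsAntiregMap 𝒜 f ∧ IsAntiregMap 𝒜 f.symm ∧
        ∀ h x c, Ev cr h x c ↔ Ev cr (a h) (f x) (conj c))

/-- regular actions -/
def ST_GACT : Prop :=
  ∀ (X : Type) (𝒜 : Atlas X), IsNormalVariety 𝒜 →
    ∀ (K : Type) [Field K] [Algebra ℂ K]
      (cr : Fin 𝒜.k → MvPolynomial (Fin 𝒜.n) ℂ →ₐ[ℂ] K), IsFunK 𝒜 cr →
    ∀ (m : ℕ) (G : Subgroup (GL (Fin m) ℂ)) [MulAction G X], IsRegAction 𝒜 G →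
      ∃ ρ : G →* (K ≃ₐ[ℂ] K), RatAct (groupFun G) ρ ∧ (∀ g, Pres (PtSet cr) (ρ g)) ∧
        ∀ g h x c, Ev cr h x c ↔ Ev cr (ρ g h) (g • x) c

/-- an orbit of codimension at most one bounds the transcendence degree of the invariants -/
def ST_GCX : Prop :=
  ∀ (X : Type) (𝒜 : Atlas X), IsNormalVariety 𝒜 →
    ∀ (K : Type) [Field K] [Algebra ℂ K]
      (cr : Fin 𝒜.k → MvPolynomial (Fin 𝒜.n) ℂ →ₐ[ℂ] K), IsFunK 𝒜 cr →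
    ∀ (m : ℕ) (G : Subgroup (GL (Fin m) ℂ)) [MulAction G X], IsRegAction 𝒜 G →
    ∀ ρ : G →* (K ≃ₐ[ℂ] K), (∀ g h x c, Ev cr h x c ↔ Ev cr (ρ g h) (g • x) c) →
    ∀ B : Subgroup (GL (Fin m) ℂ), B ≤ G → IsConnectedAlgGroup B →
    ∀ i, ∀ x ∈ 𝒜.U i, dimIn 𝒜 i Set.univ ≤ dimIn 𝒜 i (orb (G := G) B x) + 1 →
    ∀ f h : K, (∀ b : G, (b : GL (Fin m) ℂ) ∈ B → ρ b f = f) →
      (∀ b : G, (b : GL (Fin m) ℂ) ∈ B → ρ b h = h) → AlgDep f h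

/-- the algebraic heart of `ST_GCX` -/
def ST_CXA : Prop :=
  ∀ (R : Type) [CommRing R] [IsDomain R] [IsIntegrallyClosed R] [Algebra ℂ R]
    [Algebra.FiniteType ℂ R] (P : Ideal R), P.IsPrime →
    ringKrullDim R ≤ ringKrullDim (R ⧸ P) + 1 → ∀ z₁ z₂ : FractionRing R,
    (∀ p p' : MvPolynomial (Fin 2) ℂ, aeval ![z₁, z₂] p' ≠ 0 → ∀ u v : R, v ∉ P →
      aeval ![z₁, z₂] p / aeval ![z₁, z₂] p' * algebraMap R (FractionRing R) v =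
        algebraMap R (FractionRing R) u → ∃ c : ℂ, u - c • v ∈ P) →
    AlgDep z₁ z₂

end Pool.Agent.Helper43.FV
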