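import Pool.Agent.Helper43.FV.Spec

/-!
# No invariants: a finite index subgroup acts projectively on a finite dimensional space
-/

namespace Pool.Agent.Helper43.FV

section

variable {G : Type} [Group G] {K : Type} [Field K] [Algebra ℂ K] (ρ : G →* (K ≃ₐ[ℂ] K))
  {V : Type} [AddCommGroup V] [Module ℂ V] (π : Representation ℂ G V)

theorem VI_indep {ι : Type} (J : ι → (V →ₗ[ℂ] K)) (c : ι → G → K)
    (hp : ∀ i g m, J i (π g m) = c i g * ρ g (J i m))
    (hno : ∀ (s : Finset ι) (i₀ : ι), i₀ ∉ s → ∀ k : ι → K,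
      (∀ i ∈ s, ∀ g, k i * c i g = c i₀ g * ρ g (k i)) →
      ¬ ∀ m, J i₀ m + ∑ i ∈ s, k i * J i m = 0) :
    ∀ (s : Finset ι) (k : ι → K), (∀ m, ∑ i ∈ s, k i * J i m = 0) → ∀ i ∈ s, k i = 0 := by
  classical
  intro s
  induction s using Finset.induction_on with
  | empty => intro k _ i hi; exact absurd hi (Finset.notMem_empty i)
  | insert i₀ s hi₀ ih =>
    intro k hk
    by_cases hk0 : k i₀ = 0
    · intro i hi
      rcases Finset.mem_insert.1 hi with rfl | hi
      · exact hk0
      · refine ih k (fun m => ?_) i hi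
        have := hk m
        rwa [Finset.sum_insert hi₀, hk0, zero_mul, zero_add] at this
    exfalso
    let k' : ι → K := fun i => k i / k i₀
    have hk' : ∀ m, J i₀ m + ∑ i ∈ s, k' i * J i m = 0 := by
      intro m
      have h1 := hk m
      rw [Finset.sum_insert hi₀] at h1
      have h2 : k i₀ * (J i₀ m + ∑ i ∈ s, k' i * J i m) = 0 := by
        rw [mul_add, Finset.mul_sum, ← h1]
        congr 1
        refine Finset.sum_congr rfl fun i _ => ?_
        change k i₀ * (k i / k i₀ * J i m) = _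
        field_simp
      exact (mul_eq_zero.1 h2).resolve_left hk0
    refine hno s i₀ hi₀ k' ?_ hk'
    intro i hi g
    have h3 := ih (fun i => (ρ g).symm (k' i * c i g - c i₀ g * ρ g (k' i))) (by
      intro m
      apply (map_eq_zero (ρ g)).1
      rw [map_sum]
      have h4 := hk' (π g m)
      have h5 := congrArg (fun z => c i₀ g * ρ g z) (hk' m)
      simp only [map_zero, mul_zero, map_add, map_sum, map_mul, mul_add, Finset.mul_sum] at h5
      rw [hp] at h4
      have h6 : ∑ i ∈ s, ρ g ((ρ g).symm (k' i * c i g - c i₀ g * ρ g (k' i)) * J i m) =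
          (c i₀ g * ρ g (J i₀ m) + ∑ i ∈ s, k' i * J i (π g m)) -
          (c i₀ g * ρ g (J i₀ m) + ∑ i ∈ s, c i₀ g * (ρ g (k' i) * ρ g (J i m))) := by
        rw [add_sub_add_left_eq_sub, ← Finset.sum_sub_distrib]
        refine Finset.sum_congr rfl fun i _ => ?_
        rw [map_mul, AlgEquiv.apply_symm_apply, hp]
        ring
      rw [h6, h4, h5, sub_zero]) i hi
    have h7 : k' i * c i g - c i₀ g * ρ g (k' i) = 0 := by
      rw [← AlgEquiv.apply_symm_apply (ρ g) (k' i * c i g - c i₀ g * ρ g (k' i))]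
      rw [h3, map_zero]
    exact sub_eq_zero.1 h7

theorem VI_li {ι : Type} (J : ι → (V →ₗ[ℂ] K)) (c : ι → G → K)
    (hp : ∀ i g m, J i (π g m) = c i g * ρ g (J i m))
    (hno : ∀ (s : Finset ι) (i₀ : ι), i₀ ∉ s → ∀ k : ι → K,
      (∀ i ∈ s, ∀ g, k i * c i g = c i₀ g * ρ g (k i)) →
      ¬ ∀ m, J i₀ m + ∑ i ∈ s, k i * J i m = 0) [FiniteDimensional ℂ V] : Finite ι := by
  have hli : LinearIndependent K J := by
    rw [linearIndependent_iff']
    intro s g hg
    refine VI_indep ρ π J c hp hno s g fun m => ?_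
    have h1 := LinearMap.congr_fun hg m
    rw [LinearMap.sum_apply] at h1
    exact h1
  exact hli.finite

/-- the equivariant maps with a given cocycle -/
def VI_J (c : G → K) : Submodule ℂ (V →ₗ[ℂ] K) where
  carrier := {j | ∀ g m, j (π g m) = c g * ρ g (j m)}
  zero_mem' := by
    intro g m
    simp
  add_mem' := by
    intro a b ha hb g m
    rw [LinearMap.add_apply, LinearMap.add_apply, ha, hb, map_add]
    ring
  smul_mem' := by
    intro r a ha g m
    rw [LinearMap.smul_apply, LinearMap.smul_apply, ha, map_smul, mul_smul_comm]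

theorem VI_J_fin [FiniteDimensional ℂ V] (c : G → K) (hc : ∀ g, c g ≠ 0)
    (hfix : ∀ f ∈ fixF ρ, ∃ c : ℂ, f = algebraMap ℂ K c) : Module.Finite ℂ (VI_J ρ π c) := by
  classical
  let b := Module.Basis.ofVectorSpace ℂ (VI_J ρ π c)
  have hli : LinearIndependent ℂ (fun i => (b i : V →ₗ[ℂ] K)) :=
    b.linearIndependent.map' (VI_J ρ π c).subtype (Submodule.ker_subtype _)
  have hfin : Finite (Module.Basis.ofVectorSpaceIndex ℂ (VI_J ρ π c)) := by
    refine VI_li ρ π (fun i => (b i : V →ₗ[ℂ] K)) (fun _ => c) (fun i => (b i).2) ?_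
    intro s i₀ hi₀ k hk hrel
    have h1 : ∀ i ∈ s, ∃ z : ℂ, k i = algebraMap ℂ K z := by
      intro i hi
      apply hfix
      intro g
      have := hk i hi g
      rw [mul_comm] at this
      exact (mul_left_cancel₀ (hc g) this).symm
    choose! z hz using h1
    rw [linearIndependent_iff'] at hli
    have h2 := hli (insert i₀ s) (fun i => if i = i₀ then 1 else z i) (by
      rw [Finset.sum_insert hi₀, if_pos rfl, one_smul]
      ext m
      have h3 := hrel m
      rw [LinearMap.add_apply, LinearMap.sum_apply, LinearMap.zero_apply, ← h3]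
      congr 1
      refine Finset.sum_congr rfl fun i hi => ?_
      have hne : i ≠ i₀ := fun h => hi₀ (h ▸ hi)
      rw [if_neg hne, LinearMap.smul_apply, Algebra.smul_def, hz i hi]) i₀
      (Finset.mem_insert_self _ _)
    rw [if_pos rfl] at h2
    exact one_ne_zero h2
  exact Module.Finite.of_basis b

/-- the subgroup of the automorphisms fixing the class of the cocycle -/
def VI_A (c : G → K) (A : Subgroup (K ≃ₐ[ℂ] K)) (hA : ∀ a ∈ A, ∀ g, a * ρ g = ρ g * a) :
    Subgroup (K ≃ₐ[ℂ] K) where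
  carrier := {a | a ∈ A ∧ ∃ f : K, f ≠ 0 ∧ ∀ g, f * a (c g) = c g * ρ g f}
  one_mem' := ⟨A.one_mem, 1, one_ne_zero, fun g => by
    rw [one_mul, map_one, mul_one, AlgEquiv.one_apply]⟩
  mul_mem' := by
    rintro a b ⟨ha, f₁, h1, h1'⟩ ⟨hb, f₂, h2, h2'⟩
    refine ⟨A.mul_mem ha hb, f₁ * a f₂, mul_ne_zero h1 ((map_ne_zero _).2 h2), fun g => ?_⟩
    have h3 : a (ρ g f₂) = ρ g (a f₂) := AlgEquiv.congr_fun (hA a ha g) f₂
    rw [AlgEquiv.mul_apply, mul_assoc, ← map_mul, h2', map_mul, ← mul_assoc, h1', h3, map_mul,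
      mul_assoc]
  inv_mem' := by
    rintro a ⟨ha, f, h1, h1'⟩
    refine ⟨A.inv_mem ha, (a⁻¹ f)⁻¹, inv_ne_zero ((map_ne_zero _).2 h1), fun g => ?_⟩
    have h3 : a⁻¹ (ρ g f) = ρ g (a⁻¹ f) := AlgEquiv.congr_fun (hA _ (A.inv_mem ha) g) f
    have h4 := congrArg (fun z => (a⁻¹ : K ≃ₐ[ℂ] K) z) (h1' g)
    have h6 : a⁻¹ (a (c g)) = c g := by
      rw [← AlgEquiv.mul_apply, inv_mul_cancel, AlgEquiv.one_apply]
    simp only [map_mul] at h4
    rw [h3, h6] at h4
    have h5 : a⁻¹ f ≠ 0 := (map_ne_zero _).2 h1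
    have h7 : ρ g (a⁻¹ f) ≠ 0 := (map_ne_zero _).2 h5
    rw [map_inv₀]
    field_simp
    linear_combination -h4

theorem VI_A_index [FiniteDimensional ℂ V] (c : G → K) (A : Subgroup (K ≃ₐ[ℂ] K))
    (hA : ∀ a ∈ A, ∀ g, a * ρ g = ρ g * a) (j : V →ₗ[ℂ] K)
    (hj : ∀ g m, j (π g m) = c g * ρ g (j m)) (hj0 : ∃ m, j m ≠ 0) :
    (VI_A ρ c A hA).relIndex A ≠ 0 := by
  classical
  have hfin : Finite (A ⧸ (VI_A ρ c A hA).subgroupOf A) := by
    let a : (A ⧸ (VI_A ρ c A hA).subgroupOf A) → (K ≃ₐ[ℂ] K) := fun q => (q.out : K ≃ₐ[ℂ] K)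
    have haA : ∀ q, a q ∈ A := fun q => (q.out).2
    have hcomm : ∀ q g z, a q (ρ g z) = ρ g (a q z) := fun q g z =>
      AlgEquiv.congr_fun (hA (a q) (haA q) g) z
    refine VI_li ρ π (fun q => (a q).toLinearMap.comp j) (fun q g => a q (c g)) ?_ ?_
    · intro q g m
      change a q (j (π g m)) = a q (c g) * ρ g (a q (j m))
      rw [hj, map_mul, hcomm]
    · intro s q₀ hq₀ k hk hrel
      have h1 : ∀ q ∈ s, k q = 0 := by
        intro q hq
        by_contra hkq
        apply hq₀
        have h2 : q₀ = q := by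
          have h3 : (a q₀)⁻¹ * a q ∈ VI_A ρ c A hA := by
            refine ⟨A.mul_mem (A.inv_mem (haA q₀)) (haA q), (a q₀)⁻¹ (k q),
              (map_ne_zero _).2 hkq, fun g => ?_⟩
            have h4 := congrArg (fun z => ((a q₀)⁻¹ : K ≃ₐ[ℂ] K) z) (hk q hq g)
            have h5 : (a q₀)⁻¹ (a q₀ (c g)) = c g := by
              rw [← AlgEquiv.mul_apply, inv_mul_cancel, AlgEquiv.one_apply]
            have h6 : (a q₀)⁻¹ (ρ g (k q)) = ρ g ((a q₀)⁻¹ (k q)) :=
              AlgEquiv.congr_fun (hA _ (A.inv_mem (haA q₀)) g) (k q)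
            simp only [map_mul] at h4
            rw [h5, h6] at h4
            exact h4
          have h4 : (q₀.out)⁻¹ * q.out ∈ (VI_A ρ c A hA).subgroupOf A := h3
          rw [← QuotientGroup.eq] at h4
          rw [QuotientGroup.out_eq', QuotientGroup.out_eq'] at h4
          exact h4
        rw [h2]
        exact hq
      obtain ⟨m, hm⟩ := hj0
      have h2 := hrel m
      rw [Finset.sum_eq_zero (fun q hq => by rw [h1 q hq, zero_mul]), add_zero] at h2
      exact hm ((map_eq_zero (a q₀)).1 h2)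
  exact Subgroup.index_ne_zero_of_finite

end

theorem st_VI (hLINE : ST_LINE) : ST_VI := by
  classical
  intro G _ H hH K _ _ hfg ρ hrat hfix
  obtain ⟨V, iV, mV, fV, π, j, c, hπ, hc0, hjc, hj0, hgen⟩ := hLINE G H hH K hfg ρ hrat
  have hJfin := VI_J_fin ρ π c hc0 hfix
  let Vt : Submodule ℂ K := Submodule.map₂ (LinearMap.id : (V →ₗ[ℂ] K) →ₗ[ℂ] (V →ₗ[ℂ] K))
    (VI_J ρ π c) ⊤
  have hVt : ∀ j' ∈ VI_J ρ π c, ∀ m, j' m ∈ Vt := fun j' hj' m =>
    Submodule.apply_mem_map₂ _ hj' Submodule.mem_top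
  have hVfg : Vt.FG := Submodule.FG.map₂ _ (Module.Finite.iff_fg.1 hJfin) Module.Finite.fg_top
  have hVfin : Module.Finite ℂ Vt := Module.Finite.iff_fg.2 hVfg
  let b := Module.finBasis ℂ Vt
  let v : Fin (Module.finrank ℂ Vt) → K := fun i => (b i : K)
  have hjV : ∀ m, j m ∈ Vt := hVt j hjc
  refine ⟨Module.finrank ℂ Vt, v, b.linearIndependent.map' Vt.subtype (Submodule.ker_subtype _),
    ?_, ?_⟩
  · -- the ratios generate
    unfold RatGen FGen
    unfold FGen at hgen
    rw [eq_top_iff, ← hgen, IntermediateField.adjoin_le_iff]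
    rintro _ ⟨m, m', rfl⟩
    by_cases hm' : j m' = 0
    · rw [hm', div_zero]
      exact zero_mem _
    obtain ⟨i₀, hi₀⟩ : ∃ i, v i ≠ 0 := by
      by_contra hcon
      push Not at hcon
      apply hm'
      have h1 := b.sum_repr ⟨j m', hjV m'⟩
      have h2 := congrArg (fun x : Vt => (x : K)) h1
      simp only [AddSubmonoidClass.coe_finsetSum, Submodule.coe_smul] at h2
      rw [← h2]
      refine Finset.sum_eq_zero fun i _ => ?_
      have h3 : (b i : K) = 0 := hcon i
      rw [h3, smul_zero]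
    have key : ∀ m, j m / v i₀ ∈ IntermediateField.adjoin ℂ {x : K | ∃ i j, x = v i / v j} := by
      intro m
      have h1 := b.sum_repr ⟨j m, hjV m⟩
      have h2 := congrArg (fun x : Vt => (x : K)) h1
      simp only [AddSubmonoidClass.coe_finsetSum, Submodule.coe_smul] at h2
      rw [← h2, Finset.sum_div]
      refine sum_mem fun i _ => ?_
      rw [Algebra.smul_def, mul_div_assoc]
      exact mul_mem (IntermediateField.algebraMap_mem _ _)
        (IntermediateField.subset_adjoin ℂ _ ⟨i, i₀, rfl⟩)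
    have h1 : j m / j m' = (j m / v i₀) / (j m' / v i₀) := by
      field_simp
    rw [h1]
    exact div_mem (key m) (key m')
  · intro A hA
    refine ⟨VI_A ρ c A hA, fun a ha => ha.1, VI_A_index ρ π c A hA j hjc hj0, ?_⟩
    rintro a ⟨haA, f, hf, hfa⟩
    have hcomm : ∀ g z, a (ρ g z) = ρ g (a z) := fun g z =>
      AlgEquiv.congr_fun (hA a haA g) z
    let L : K →ₗ[ℂ] K := (LinearMap.mulLeft ℂ f).comp a.toLinearMap
    have hLap : ∀ x, L x = f * a x := fun x => rfl
    have hL : ∀ x ∈ Vt, L x ∈ Vt := by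
      have h1 : Vt ≤ Vt.comap L := by
        refine Submodule.map₂_le.2 ?_
        intro j' hj' m _
        have h2 : L.comp j' ∈ VI_J ρ π c := by
          intro g m
          change f * a (j' (π g m)) = c g * ρ g (f * a (j' m))
          rw [hj', map_mul, ← mul_assoc, hfa, hcomm, map_mul, mul_assoc]
        exact hVt _ h2 m
      exact h1
    let T : Vt →ₗ[ℂ] Vt := L.restrict hL
    have hT : Function.Injective T := by
      intro x y hxy
      have h1 : L x = L y := congrArg (fun z : Vt => (z : K)) hxy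
      rw [hLap, hLap] at h1
      exact Subtype.ext (a.injective (mul_left_cancel₀ hf h1))
    have hdet : (LinearMap.toMatrix b b T).det ≠ 0 := by
      rw [LinearMap.det_toMatrix]
      have := LinearEquiv.isUnit_det' (LinearEquiv.ofInjectiveEndo T hT)
      exact this.ne_zero
    refine ⟨Matrix.GeneralLinearGroup.mkOfDetNeZero _ hdet, f⁻¹, inv_ne_zero hf, fun i => ?_⟩
    have h1 := b.sum_repr (T (b i))
    have h2 := congrArg (fun x : Vt => (x : K)) h1
    simp only [AddSubmonoidClass.coe_finsetSum, Submodule.coe_smul] at h2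
    have h3 : ∑ k, ((Matrix.GeneralLinearGroup.mkOfDetNeZero _ hdet :
        GL (Fin (Module.finrank ℂ Vt)) ℂ) : Matrix _ _ ℂ) k i • v k = L (b i) := by
      refine Eq.trans ?_ h2
      refine Finset.sum_congr rfl fun k _ => ?_
      change (LinearMap.toMatrix b b T) k i • v k = _
      rw [LinearMap.toMatrix_apply]
    rw [h3, hLap, inv_mul_cancel_left₀ hf]

end Pool.Agent.Helper43.FV
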