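import Pool.Agent.Helper43.FV.Spec
import Pool.Agent.Helper81.RS.GEN

/-!
# Generators multiplied by invariants
-/

namespace Pool.Agent.Helper43.FV

open Pool.Agent.Helper43.RS
open scoped ComplexConjugate TensorProduct
open MvPolynomial

section

variable {G : Type} [Group G] {K : Type} [Field K] [Algebra ℂ K] (ρ : G →* (K ≃ₐ[ℂ] K))
  (B : Subgroup G) (lam : B → ℂ)

/-- nowhere zero cocycles with a given restriction to `B` -/
structure YSET_Coc (f : G → K) : Prop where
  ne : ∀ g, f g ≠ 0
  mul : ∀ g h, f (g * h) = f g * ρ g (f h)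
  res : ∀ b : B, f b = algebraMap ℂ K (lam b)

variable {ρ B lam}

theorem YSET_indep (hBF : ∀ z : K, (∀ b ∈ B, ρ b z = z) → z ∈ fixF ρ) (s : Finset (G → K)) :
    (∀ f ∈ s, YSET_Coc ρ B lam f) → ∀ k : (G → K) → K, (∀ h, ∑ f ∈ s, k f * f h = 0) →
      ∀ f ∈ s, k f = 0 := by
  classical
  induction s using Finset.induction_on with
  | empty => intro _ k _ f hf; exact absurd hf (Finset.notMem_empty f)
  | insert f₀ s hf₀ ih =>
    intro hs k hk
    have hs' : ∀ f ∈ s, YSET_Coc ρ B lam f := fun f hf => hs f (Finset.mem_insert_of_mem hf)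
    have h0 := hs f₀ (Finset.mem_insert_self _ _)
    by_cases hk0 : k f₀ = 0
    · intro f hf
      rcases Finset.mem_insert.1 hf with rfl | hf
      · exact hk0
      · refine ih hs' k (fun h => ?_) f hf
        have := hk h
        rwa [Finset.sum_insert hf₀, hk0, zero_mul, zero_add] at this
    -- translated relation
    have hrel : ∀ g, ∀ h, ∑ f ∈ insert f₀ s, (ρ g).symm (k f * f g) * f h = 0 := by
      intro g h
      have h1 := hk (g * h)
      have h2 : ∑ f ∈ insert f₀ s, k f * f (g * h) =
          ρ g (∑ f ∈ insert f₀ s, (ρ g).symm (k f * f g) * f h) := by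
        rw [map_sum]
        refine Finset.sum_congr rfl fun f hf => ?_
        rw [map_mul, AlgEquiv.apply_symm_apply, (hs f hf).mul, mul_assoc]
      rw [h2] at h1
      exact (map_eq_zero (ρ g)).1 h1
    have hprop : ∀ f ∈ s, ∀ g, (ρ g).symm (k f₀ * f₀ g) * k f = k f₀ * (ρ g).symm (k f * f g) := by
      intro f hf g
      have := ih hs' (fun f => (ρ g).symm (k f₀ * f₀ g) * k f - k f₀ * (ρ g).symm (k f * f g))
        (by
          intro h
          have h1 := hk h
          have h2 := hrel g h
          rw [Finset.sum_insert hf₀] at h1 h2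
          have h3 : ∑ f ∈ s, ((ρ g).symm (k f₀ * f₀ g) * k f - k f₀ * (ρ g).symm (k f * f g)) * f h
              = (ρ g).symm (k f₀ * f₀ g) * ∑ f ∈ s, k f * f h -
                k f₀ * ∑ f ∈ s, (ρ g).symm (k f * f g) * f h := by
            rw [Finset.mul_sum, Finset.mul_sum, ← Finset.sum_sub_distrib]
            refine Finset.sum_congr rfl fun f _ => ?_
            ring
          rw [h3]
          have h4 : ∑ f ∈ s, k f * f h = -(k f₀ * f₀ h) := eq_neg_of_add_eq_zero_right h1
          have h5 : ∑ f ∈ s, (ρ g).symm (k f * f g) * f h =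
            -((ρ g).symm (k f₀ * f₀ g) * f₀ h) := eq_neg_of_add_eq_zero_right h2
          rw [h4, h5]
          ring) f hf
      exact sub_eq_zero.1 this
    have hz : ∀ f ∈ s, k f = 0 := by
      intro f hf
      by_contra hkf
      have hf' := hs' f hf
      apply hf₀
      have key : ∀ g, f₀ g * ρ g (k f / k f₀) = (k f / k f₀) * f g := by
        intro g
        have h1 := congrArg (ρ g) (hprop f hf g)
        simp only [map_mul, AlgEquiv.apply_symm_apply] at h1
        have h2 : ρ g (k f₀) ≠ 0 := (map_ne_zero _).2 hk0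
        rw [map_div₀]
        field_simp
        linear_combination h1
      have hfix : k f / k f₀ ∈ fixF ρ := by
        apply hBF
        intro b hb
        have h1 := key b
        have h2 := h0.res ⟨b, hb⟩
        have h3 := hf'.res ⟨b, hb⟩
        have h4 := h0.ne b
        simp only at h2 h3
        rw [h3, ← h2, mul_comm] at h1
        exact mul_right_cancel₀ h4 h1
      have : f = f₀ := by
        funext g
        have h1 := key g
        rw [hfix g, mul_comm] at h1
        exact (mul_left_cancel₀ (div_ne_zero hkf hk0) h1).symm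
      rwa [← this]
    intro f hf
    rcases Finset.mem_insert.1 hf with rfl | hf
    · have h1 := hk 1
      rw [Finset.sum_insert hf₀, Finset.sum_eq_zero (fun f hf => by rw [hz f hf, zero_mul]),
        add_zero] at h1
      exact (mul_eq_zero.1 h1).resolve_right (h0.ne 1)
    · exact hz f hf

theorem YSET_finite (hBF : ∀ z : K, (∀ b ∈ B, ρ b z = z) → z ∈ fixF ρ) (Cs : Set (G → K))
    (hCs : ∀ f ∈ Cs, YSET_Coc ρ B lam f) {n : ℕ} (e : Fin n → G → K)
    (he : ∀ f ∈ Cs, f ∈ Submodule.span K (Set.range e)) : Cs.Finite := by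
  classical
  have hli : LinearIndependent K (fun f : Cs => (f : G → K)) := by
    rw [linearIndependent_iff']
    intro s g hg f hf
    let s' : Finset (G → K) := s.map ⟨Subtype.val, Subtype.val_injective⟩
    let k : (G → K) → K := fun f => if h : f ∈ Cs then g ⟨f, h⟩ else 0
    have h1 := YSET_indep hBF (lam := lam) s' (by
      intro f hf
      obtain ⟨f', -, rfl⟩ := Finset.mem_map.1 hf
      exact hCs _ f'.2) k (by
      intro h
      have h2 := congrFun hg h
      rw [Finset.sum_apply] at h2
      rw [Finset.sum_map]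
      refine Eq.trans (Finset.sum_congr rfl fun f _ => ?_) h2
      simp [k]) f (Finset.mem_map.2 ⟨f, hf, rfl⟩)
    simpa [k] using h1
  let W := Submodule.span K (Set.range e)
  have : Module.Finite K W := Module.Finite.span_of_finite K (Set.finite_range e)
  have hli' : LinearIndependent K (fun f : Cs => (⟨f, he f f.2⟩ : W)) := by
    apply LinearIndependent.of_comp W.subtype
    exact hli
  have : Finite Cs := hli'.finite
  exact Set.toFinite Cs

end

theorem st_YSET (hLK : RS.ST_LK) (hLINE : ST_LINE) : ST_YSET := by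
  classical
  intro G _ H hH hred B hsol hirrB K _ _ hfg ρ hrat hBF
  obtain ⟨V, iV, mV, fV, π, j, c, hπ, hc0, hjc, ⟨m₀, hm₀⟩, hgen⟩ := hLINE G H hH K hfg ρ hrat
  have hspan := gen_span hLK hH hred B hsol hirrB π hπ
  set E : Set V := {x | ∃ (g : G) (r : V), (r ≠ 0 ∧ ∃ lam : B → ℂ, ∀ b : B,
      π b r = lam b • r) ∧ x = π g r} with hE
  -- an eigenvector with nonzero image
  obtain ⟨ξ, lam, hξ, hjξ⟩ : ∃ (ξ : V) (lam : B → ℂ), (∀ b : B, π b ξ = lam b • ξ) ∧ j ξ ≠ 0 := by
    by_contra hcon
    push Not at hcon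
    apply hm₀
    have h1 : (⊤ : Submodule ℂ V) ≤ LinearMap.ker j := by
      rw [← hspan, Submodule.span_le]
      rintro x ⟨g, r, ⟨-, lam, hr⟩, rfl⟩
      change j (π g r) = 0
      rw [hjc, hcon r lam hr, map_zero, mul_zero]
    exact h1 Submodule.mem_top
  let j' : V →ₗ[ℂ] K := (LinearMap.mulLeft ℂ (j ξ)⁻¹).comp j
  have hj' : ∀ m, j' m = (j ξ)⁻¹ * j m := fun m => rfl
  let c' : G → K := fun g => j' (π g ξ)
  have hj'c : ∀ g m, j' (π g m) = c' g * ρ g (j' m) := by
    intro g m
    have h1 : ρ g (j ξ) ≠ 0 := (map_ne_zero _).2 hjξ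
    change (j ξ)⁻¹ * j (π g m) = (j ξ)⁻¹ * j (π g ξ) * ρ g ((j ξ)⁻¹ * j m)
    rw [hjc, hjc, map_mul, map_inv₀]
    field_simp
  have hj'ξ : j' ξ = 1 := inv_mul_cancel₀ hjξ
  have hc'0 : ∀ g, c' g ≠ 0 := by
    intro g
    change (j ξ)⁻¹ * j (π g ξ) ≠ 0
    rw [hjc]
    exact mul_ne_zero (inv_ne_zero hjξ) (mul_ne_zero (hc0 g) ((map_ne_zero _).2 hjξ))
  have hc'mul : ∀ g h, c' (g * h) = c' g * ρ g (c' h) := by
    intro g h
    change j' (π (g * h) ξ) = _
    rw [map_mul]
    exact hj'c g (π h ξ)
  have hc'B : ∀ b : B, c' b = algebraMap ℂ K (lam b) := by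
    intro b
    change j' (π b ξ) = _
    rw [hξ, map_smul, hj'ξ, Algebra.smul_def, mul_one]
  -- the finite set
  obtain ⟨t, ht, htspan⟩ : ∃ t : Finset V, (t : Set V) ⊆ E ∧ Submodule.span ℂ (t : Set V) = ⊤ := by
    have h1 : (Submodule.span ℂ E).FG := by
      rw [hspan]
      exact Module.Finite.fg_top
    obtain ⟨t, ht, h2⟩ := Submodule.fg_span_iff_fg_span_finset_subset E |>.1 h1
    exact ⟨t, ht, by rw [← h2, hspan]⟩
  let Y : Finset K := insert 1 ((t.image j').filter (fun y => y ≠ 0))
  let y : Fin Y.card → K := fun i => (Y.equivFin.symm i : K)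
  have hrange : Set.range y = (Y : Set K) := by
    ext z
    constructor
    · rintro ⟨i, rfl⟩
      exact (Y.equivFin.symm i).2
    · intro hz
      exact ⟨Y.equivFin ⟨z, hz⟩, by simp [y]⟩
  have hY0 : ∀ z ∈ Y, z ≠ 0 := by
    intro z hz
    rcases Finset.mem_insert.1 hz with rfl | hz
    · exact one_ne_zero
    · exact (Finset.mem_filter.1 hz).2
  refine ⟨Y.card, y, fun i => hY0 _ (Y.equivFin.symm i).2, ?_, ?_, ?_⟩
  · have h1 : (1 : K) ∈ Set.range y := by
      rw [hrange]
      exact Finset.mem_insert_self _ _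
    exact h1
  · rw [FGen, eq_top_iff, ← hgen, IntermediateField.adjoin_le_iff, hrange]
    have hj'm : ∀ m, j' m ∈ IntermediateField.adjoin ℂ (Y : Set K) := by
      intro m
      have h1 : m ∈ Submodule.span ℂ (t : Set V) := by rw [htspan]; trivial
      induction h1 using Submodule.span_induction with
      | mem x hx =>
        by_cases h0 : j' x = 0
        · rw [h0]; exact zero_mem _
        · apply IntermediateField.subset_adjoin
          apply Finset.mem_insert_of_mem
          exact Finset.mem_filter.2 ⟨Finset.mem_image_of_mem _ hx, h0⟩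
      | zero => rw [map_zero]; exact zero_mem _
      | add x y _ _ hx hy => rw [map_add]; exact add_mem hx hy
      | smul c x _ hx =>
        rw [map_smul, Algebra.smul_def]
        exact mul_mem (IntermediateField.algebraMap_mem _ c) hx
    rintro x ⟨m, m', rfl⟩
    have h1 : j m / j m' = j' m / j' m' := by
      rw [hj', hj', mul_div_mul_left _ _ (inv_ne_zero hjξ)]
    rw [h1]
    exact div_mem (hj'm m) (hj'm m')
  · intro A hA
    have hA' : ∀ a ∈ A, ∀ g r, a (ρ g r) = ρ g (a r) := by
      intro a ha g r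
      exact congrArg (fun u : K ≃ₐ[ℂ] K => u r) (hA a ha g)
    let A' : Subgroup (K ≃ₐ[ℂ] K) :=
      { carrier := {a | a ∈ A ∧ ∀ g, a (c' g) = c' g}
        mul_mem' := by
          rintro a b ⟨h1, h2⟩ ⟨h3, h4⟩
          exact ⟨A.mul_mem h1 h3, fun g => by rw [AlgEquiv.mul_apply, h4, h2]⟩
        one_mem' := ⟨A.one_mem, fun g => rfl⟩
        inv_mem' := by
          rintro a ⟨h1, h2⟩
          refine ⟨A.inv_mem h1, fun g => ?_⟩
          exact (AlgEquiv.symm_apply_eq a).2 (h2 g).symm }
    refine ⟨A', fun a ha => ha.1, ?_, ?_⟩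
    · -- finite index
      let F : A → (G → K) := fun a g => (a : K ≃ₐ[ℂ] K) (c' g)
      have hfin : (Set.range F).Finite := by
        let bs := Module.finBasis ℂ V
        refine YSET_finite hBF (lam := lam) (Set.range F) ?_
          (fun i g => algebraMap ℂ K (bs.repr (π g ξ) i)) ?_
        · rintro f ⟨a, rfl⟩
          refine ⟨fun g => (map_ne_zero _).2 (hc'0 g), fun g h => ?_, fun b => ?_⟩
          · change (a : K ≃ₐ[ℂ] K) (c' (g * h)) = _
            rw [hc'mul, map_mul, hA' a a.2]
          · change (a : K ≃ₐ[ℂ] K) (c' b) = _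
            rw [hc'B, AlgEquiv.commutes]
        · rintro f ⟨a, rfl⟩
          have h1 : F a = ∑ i, (a : K ≃ₐ[ℂ] K) (j' (bs i)) •
              (fun g => algebraMap ℂ K (bs.repr (π g ξ) i)) := by
            funext g
            change (a : K ≃ₐ[ℂ] K) (j' (π g ξ)) = _
            conv_lhs => rw [← bs.sum_repr (π g ξ)]
            rw [map_sum, map_sum, Finset.sum_apply]
            refine Finset.sum_congr rfl fun i _ => ?_
            rw [map_smul, map_smul, Algebra.smul_def, Pi.smul_apply, smul_eq_mul, mul_comm]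
          rw [h1]
          exact Submodule.sum_mem _ fun i _ =>
            Submodule.smul_mem _ _ (Submodule.subset_span ⟨i, rfl⟩)
      have : Finite (A ⧸ A'.subgroupOf A) := by
        let Fq : (A ⧸ A'.subgroupOf A) → Set.range F := Quotient.lift (fun a => ⟨F a, a, rfl⟩) (by
          intro a b hab
          have h1 : a⁻¹ * b ∈ A'.subgroupOf A := QuotientGroup.leftRel_apply.1 hab
          have h2 : ∀ g, ((a⁻¹ * b : A) : K ≃ₐ[ℂ] K) (c' g) = c' g := (Subgroup.mem_subgroupOf.1 h1).2
          apply Subtype.ext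
          funext g
          have h3 := congrArg (a : K ≃ₐ[ℂ] K) (h2 g)
          change (a : K ≃ₐ[ℂ] K) ((a : K ≃ₐ[ℂ] K).symm ((b : K ≃ₐ[ℂ] K) (c' g))) = _ at h3
          rw [AlgEquiv.apply_symm_apply] at h3
          exact h3.symm)
        have hinj : Function.Injective Fq := by
          intro a b hab
          induction a using QuotientGroup.induction_on with
          | H a =>
            induction b using QuotientGroup.induction_on with
            | H b =>
              apply QuotientGroup.eq.2
              rw [Subgroup.mem_subgroupOf]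
              refine ⟨(a⁻¹ * b).2, fun g => ?_⟩
              have h1 : F a = F b := congrArg Subtype.val hab
              have h2 : (a : K ≃ₐ[ℂ] K) (c' g) = (b : K ≃ₐ[ℂ] K) (c' g) := congrFun h1 g
              change (a : K ≃ₐ[ℂ] K).symm ((b : K ≃ₐ[ℂ] K) (c' g)) = c' g
              rw [← h2, AlgEquiv.symm_apply_apply]
        have : Finite (Set.range F) := hfin.to_subtype
        exact Finite.of_injective Fq hinj
      exact Subgroup.index_ne_zero_of_finite
    · intro a ha i
      obtain ⟨haA, hac⟩ := ha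
      have hyi : y i ∈ Y := (Y.equivFin.symm i).2
      rcases Finset.mem_insert.1 hyi with h1 | h1
      · refine ⟨1, one_mem _, ?_⟩
        rw [h1, map_one, one_mul]
      · obtain ⟨h2, h3⟩ := Finset.mem_filter.1 h1
        obtain ⟨x, hx, hxy⟩ := Finset.mem_image.1 h2
        obtain ⟨g, r, ⟨-, lr, hr⟩, rfl⟩ := ht hx
        have hyi' : y i = c' g * ρ g (j' r) := by rw [← hxy, hj'c]
        have hr0 : j' r ≠ 0 := by
          intro h0
          apply h3
          rw [hyi', h0, map_zero, mul_zero]
        have hρr : ∀ b : B, c' b * ρ b (j' r) = algebraMap ℂ K (lr b) * j' r := by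
          intro b
          rw [← hj'c, hr, map_smul, Algebra.smul_def]
        have hρar : ∀ b : B, c' b * ρ b (a (j' r)) = algebraMap ℂ K (lr b) * a (j' r) := by
          intro b
          have h4 := congrArg a (hρr b)
          rwa [map_mul, map_mul, hac, hA' a haA, AlgEquiv.commutes] at h4
        have hu : a (j' r) / j' r ∈ fixF ρ := by
          apply hBF
          intro b hb
          have h4 := hρr ⟨b, hb⟩
          have h5 := hρar ⟨b, hb⟩
          simp only at h4 h5
          have h6 : ρ b (j' r) ≠ 0 := (map_ne_zero _).2 hr0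
          rw [map_div₀, div_eq_div_iff h6 hr0]
          apply mul_left_cancel₀ (hc'0 b)
          linear_combination (j' r) * h5 - (a (j' r)) * h4
        refine ⟨_, hu, ?_⟩
        have h4 : a (j' r) = a (j' r) / j' r * j' r := (div_mul_cancel₀ _ hr0).symm
        rw [hyi', map_mul, hac, hA' a haA, h4, map_mul, hu g]
        field_simp

end Pool.Agent.Helper43.FV
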